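import Pool.Agent.Lib.MP_a57f33_nt.GZ.Base

/-!
The two theorems of part F (interface).
-/

namespace Pool.Agent.MP_a57f33_nt.GZ

open Pool.Agent.MP_a57f33_nt

/-- F1: `exp(S_p)` preserves the regularised double shuffle relations. -/
def F1S : Prop := ∀ (k : Type) [CommRing k] [Algebra ℚ k] (N : ℕ) (p Z : List Bool → k)
  (γ : ℕ → k), Odd N → 3 ≤ N → DM N p → Cyc.RegDS γ Z → ∃ γ', Cyc.RegDS γ' (expA N p Z)

/-- F2: the lowest odd part of a solution is in `dm₀ ⊗ k`. -/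
def F2S : Prop := ∀ (k : Type) [CommRing k] [Algebra ℚ k] (N : ℕ) (Z : List Bool → k)
  (γ : ℕ → k), Odd N → Cyc.RegDS γ Z → OddVan N Z → DM N (part N Z)

end Pool.Agent.MP_a57f33_nt.GZ
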