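import Pool.Agent.Lib.MP_a57f33_nt.GZ.StmD
import Pool.Agent.Lib.MP_a57f33_nt.GZ.StmF0

/-!
Assembly of part D: Zagier's formula from the invariance under `exp(S_p)`.
-/

namespace Pool.Agent.MP_a57f33_nt.GZ

open Pool.Agent.MP_a57f33_nt

lemma alt_length (c : Bool) (n : ℕ) : (BZ.alt c n).length = n := by
  induction n generalizing c with
  | zero => rfl
  | succ n ih => rw [BZ.alt, List.length_cons, ih]

lemma alt_add_even (c : Bool) (m n : ℕ) : BZ.alt c (2 * m + n) = BZ.alt c (2 * m) ++ BZ.alt c n := by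
  induction m with
  | zero => simp [BZ.alt]
  | succ m ih =>
    rw [show 2 * (m + 1) + n = (2 * m + n) + 1 + 1 by ring,
      show 2 * (m + 1) = 2 * m + 1 + 1 by ring]
    simp only [BZ.alt, Bool.not_not, List.cons_append]
    rw [ih]

lemma alt_add_odd (c : Bool) (m n : ℕ) :
    BZ.alt c (2 * m + 1 + n) = BZ.alt c (2 * m + 1) ++ BZ.alt (!c) n := by
  rw [show 2 * m + 1 + n = 2 * m + (1 + n) by ring, alt_add_even, alt_add_even c m 1,
    List.append_assoc]
  congr 1
  rw [add_comm 1 n]
  simp [BZ.alt]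

lemma hw_eq (a b : ℕ) : BZ.hw a b = BZ.alt false (2 * b + 1) ++ BZ.alt false (2 * a + 2) := by
  unfold BZ.hw
  rw [BZ.bl_eq, BZ.bl_eq, alt_add_even false b 1]
  simp [BZ.alt, mul_add]

lemma hw_length (a b : ℕ) : (BZ.hw a b).length = 2 * (a + b + 1) + 1 := by
  rw [hw_eq, List.length_append, alt_length, alt_length]
  ring

lemma alt_reverse_odd (c : Bool) (m : ℕ) :
    (BZ.alt c (2 * m + 1)).reverse = BZ.alt c (2 * m + 1) := by
  rw [alt_add_even c m 1, List.reverse_append, BZ.alt_reverse]
  have h1 : (BZ.alt c 1).reverse = [c] := by simp [BZ.alt]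
  have h2 : BZ.alt c 1 = [c] := by simp [BZ.alt]
  rw [h1, h2, ← h2, ← alt_add_even c m 1]
  simp [BZ.alt, add_comm]

lemma rev_hw (r β : ℕ) (h1 : 1 ≤ β) :
    (BZ.alt true (2 * β) ++ BZ.alt false (2 * (r - β) + 1)).reverse = BZ.hw (β - 1) (r - β) := by
  rw [List.reverse_append, alt_reverse_odd, BZ.alt_reverse, hw_eq]
  congr 2
  omega

section

variable {k : Type} [CommRing k] [Algebra ℚ k]

lemma act_hw (hp0 : P0S) (hkv : KvS) (hacth : ActhS) (htel : TelS) (p Z : List Bool → k)
    (r a b : ℕ) (hr : 1 ≤ r) (hr2 : r ≤ a + b + 1) (hp : DM (2 * r + 1) p) :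
    act (2 * r + 1) p Z (BZ.hw a b) = cz r a b •
      (p (List.replicate (2 * r) false ++ [true]) * Z (BZ.alt false (2 * (a + b + 1 - r)))) := by
  obtain ⟨h1, h2, h3, h4, h5⟩ := hkv hp0 k (2 * r + 1) p hp
  set c := p (List.replicate (2 * r) false ++ [true]) with hc
  rw [hw_eq, hacth k p Z r a b hr hr2]
  set θ : ℚ := 1 - 1 / 2 ^ (2 * r) with hθ
  have e1 : ∀ β ∈ Finset.range (b + 1), (if β < r ∧ r ≤ a + β + 1 then
      p (BZ.alt false (2 * β + 1) ++ BZ.alt false (2 * (r - β))) else 0) =
      (2 * (-1) ^ r * (if β < r ∧ r ≤ a + β + 1 then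
        (((2 * r).choose (2 * β) : ℚ) - θ * ((2 * r).choose (2 * β + 1) : ℚ)) else 0)) • c := by
    intro β _
    split_ifs with h
    · have e : BZ.alt false (2 * β + 1) ++ BZ.alt false (2 * (r - β)) = BZ.hw (r - 1 - β) β := by
        rw [hw_eq]
        congr 2
        omega
      rw [e, h4]
      have e2 : r - 1 - β + β + 1 = r := by omega
      rw [e2, ← hc]
      congr 1
      unfold cz
      rw [← hθ]
      have e3 : (2 * r).choose (2 * (r - 1 - β) + 2) = (2 * r).choose (2 * β) := by
        rw [← Nat.choose_symm (show 2 * β ≤ 2 * r by omega)]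
        congr 1
        omega
      rw [e3]
    · simp
  have e2 : ∀ β ∈ Finset.range (b + 1), (if 1 ≤ β ∧ β ≤ r ∧ r ≤ a + β then
      p (BZ.alt true (2 * β) ++ BZ.alt false (2 * (r - β) + 1)) else 0) =
      (2 * (-1) ^ r * (if 1 ≤ β ∧ β ≤ r ∧ r ≤ a + β then
        (((2 * r).choose (2 * β) : ℚ) - θ * ((2 * r).choose (2 * β - 1) : ℚ)) else 0)) • c := by
    intro β _
    split_ifs with h
    · have e : p (BZ.alt true (2 * β) ++ BZ.alt false (2 * (r - β) + 1)) =
          p (BZ.hw (β - 1) (r - β)) := by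
        rw [← rev_hw r β h.1, h2, List.length_append, alt_length, alt_length]
        have : (-1 : k) ^ (2 * β + (2 * (r - β) + 1) + 1) = 1 := by
          apply Even.neg_one_pow
          exact ⟨β + (r - β) + 1, by ring⟩
        rw [this, one_mul]
      rw [e, h4]
      have e2 : β - 1 + (r - β) + 1 = r := by omega
      rw [e2, ← hc]
      congr 1
      unfold cz
      rw [← hθ]
      have e3 : 2 * (β - 1) + 2 = 2 * β := by omega
      have e4 : (2 * r).choose (2 * (r - β) + 1) = (2 * r).choose (2 * β - 1) := by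
        rw [← Nat.choose_symm (show 2 * β - 1 ≤ 2 * r by omega)]
        congr 1
        omega
      rw [e3, e4]
    · simp
  rw [Finset.sum_congr rfl e1, Finset.sum_congr rfl e2, ← Finset.sum_smul, ← Finset.sum_smul,
    ← Finset.mul_sum, ← Finset.mul_sum, h5 r hr, ← hc]
  have e3 : (if r ≤ b then ((2 * (-1) ^ r : ℚ)) • c else 0) =
      (2 * (-1) ^ r * (if r ≤ b then (1 : ℚ) else 0)) • c := by
    split_ifs
    · rw [mul_one]
    · rw [mul_zero, zero_smul]
  have e4 : (if r ≤ a then ((2 * (-1) ^ r : ℚ)) • c else 0) =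
      (2 * (-1) ^ r * (if r ≤ a then (1 : ℚ) else 0)) • c := by
    split_ifs
    · rw [mul_one]
    · rw [mul_zero, zero_smul]
  rw [e3, e4, ← sub_smul, ← add_smul, ← sub_smul, ← smul_mul_assoc]
  congr 2
  have := htel r a b θ hr hr2
  unfold cz
  rw [← hθ, ← this]
  ring

lemma act_nil (N : ℕ) (hN : 1 ≤ N) (p Z : List Bool → k) : act N p Z [] = 0 := by
  unfold act
  have : ([] : List Bool).length + 1 - N = 0 := by simp; omega
  rw [this, Finset.sum_range_zero]

lemma act_short (N : ℕ) (p Z : List Bool → k) (w : List Bool) (h : w.length < N) :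
    act N p Z w = 0 := by
  unfold act
  have : w.length + 1 - N = 0 := by omega
  rw [this, Finset.sum_range_zero]

lemma act_full (N : ℕ) (p Z : List Bool → k) (w : List Bool) (h : w.length = N) :
    act N p Z w = p w * Z [] := by
  unfold act
  have : w.length + 1 - N = 1 := by omega
  rw [this, Finset.sum_range_one]
  subst h
  simp

/-- If `act N p` of everything vanishes at `w`, then `exp` does not change the value at `w`. -/
lemma expA_of_zero (N : ℕ) (p Z : List Bool → k) (w : List Bool)
    (h : ∀ Y : List Bool → k, act N p Y w = 0) : expA N p Z w = Z w := by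
  unfold expA
  rw [Finset.sum_range_succ']
  rw [Finset.sum_eq_zero]
  · simp
  · intro n _
    rw [Function.iterate_succ_apply', h, smul_zero]

/-- If the second power of `act N p` vanishes at `w`, only two terms remain. -/
lemma expA_of_zero2 (N : ℕ) (p Z : List Bool → k) (w : List Bool) (hw : w ≠ [])
    (h : ∀ Y : List Bool → k, act N p (act N p Y) w = 0) :
    expA N p Z w = Z w + act N p Z w := by
  unfold expA
  obtain ⟨m, hm⟩ : ∃ m, w.length + 1 = m + 1 + 1 := by
    have := List.length_pos_of_ne_nil hw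
    exact ⟨w.length - 1, by omega⟩
  rw [hm, Finset.sum_range_succ', Finset.sum_range_succ']
  rw [Finset.sum_eq_zero]
  · simp [add_comm]
  · intro n _
    rw [Function.iterate_succ_apply', Function.iterate_succ_apply', h, smul_zero]

/-- The difference of both sides of Zagier's formula. -/
def FF (a b : ℕ) (Z : List Bool → k) : k :=
  Z (BZ.hw a b) - ∑ r ∈ Finset.range (a + b + 1), cz (r + 1) a b •
    (Z (List.replicate (2 * (r + 1)) false ++ [true]) * Z (BZ.alt false (2 * (a + b - r))))

lemma FF_expA (hp0 : P0S) (hkv : KvS) (halte : AlteS) (hactz : ActzS) (hacth : ActhS)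
    (htel : TelS) (p Z : List Bool → k) (h1 : Z [] = 1) (s a b : ℕ) (hs : 1 ≤ s)
    (hp : DM (2 * s + 1) p) : FF a b (expA (2 * s + 1) p Z) = FF a b Z := by
  obtain ⟨g1, g2, g3, g4, g5⟩ := hkv hp0 k (2 * s + 1) p hp
  have hnil : expA (2 * s + 1) p Z [] = Z [] :=
    expA_of_zero _ _ _ _ fun Y => act_nil _ (by omega) _ _
  have halt : ∀ j, expA (2 * s + 1) p Z (BZ.alt false (2 * j)) = Z (BZ.alt false (2 * j)) :=
    fun j => expA_of_zero _ _ _ _ fun Y => halte k p Y s j
  have hz : ∀ m, expA (2 * s + 1) p Z (List.replicate m false ++ [true]) =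
      Z (List.replicate m false ++ [true]) +
        if m = 2 * s then p (List.replicate m false ++ [true]) else 0 := by
    intro m
    rw [expA_of_zero2 _ _ _ _ (by simp)]
    · rw [hactz k (2 * s + 1) p Z (by omega) g3 m, h1, mul_one]
      congr 1
      by_cases hm : m = 2 * s
      · rw [if_pos hm, if_pos (by omega)]
      · rw [if_neg hm, if_neg (by omega)]
    · intro Y
      rw [hactz k (2 * s + 1) p _ (by omega) g3 m, act_nil _ (by omega)]
      split_ifs <;> simp
  by_cases hsn : s ≤ a + b + 1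
  · have hhw : expA (2 * s + 1) p Z (BZ.hw a b) = Z (BZ.hw a b) + cz s a b •
        (p (List.replicate (2 * s) false ++ [true]) * Z (BZ.alt false (2 * (a + b + 1 - s)))) := by
      rw [expA_of_zero2]
      · rw [act_hw hp0 hkv hacth htel p Z s a b hs hsn hp]
      · intro e
        have := hw_length a b
        rw [e] at this
        simp at this
      · intro Y
        rw [act_hw hp0 hkv hacth htel p _ s a b hs hsn hp, halte k p Y s]
        simp
    unfold FF
    rw [hhw]
    have e : ∀ r ∈ Finset.range (a + b + 1), cz (r + 1) a b •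
        (expA (2 * s + 1) p Z (List.replicate (2 * (r + 1)) false ++ [true]) *
          expA (2 * s + 1) p Z (BZ.alt false (2 * (a + b - r)))) =
        cz (r + 1) a b • (Z (List.replicate (2 * (r + 1)) false ++ [true]) *
          Z (BZ.alt false (2 * (a + b - r)))) +
        if r = s - 1 then cz s a b •
          (p (List.replicate (2 * s) false ++ [true]) *
            Z (BZ.alt false (2 * (a + b + 1 - s)))) else 0 := by
      intro r _
      rw [hz, halt]
      by_cases hrs : r = s - 1
      · have h3 : r + 1 = s := by omega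
        have h4 : a + b - r = a + b + 1 - s := by omega
        rw [if_pos (by omega), if_pos hrs, h3, h4, add_mul, smul_add]
      · rw [if_neg (by omega), if_neg hrs, add_zero, add_zero]
    rw [Finset.sum_congr rfl e, Finset.sum_add_distrib, Finset.sum_ite_eq']
    rw [if_pos (by rw [Finset.mem_range]; omega)]
    ring
  · have hhw : expA (2 * s + 1) p Z (BZ.hw a b) = Z (BZ.hw a b) := by
      apply expA_of_zero
      intro Y
      apply act_short
      rw [hw_length]
      omega
    unfold FF
    rw [hhw]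
    congr 1
    apply Finset.sum_congr rfl
    intro r hr
    rw [Finset.mem_range] at hr
    rw [hz, halt, if_neg (by omega), add_zero]

lemma DM_neg {N : ℕ} {p : List Bool → k} (h : DM N p) : DM N (fun w => - p w) := by
  intro l
  obtain ⟨ψ, h1, h2, h3⟩ := h (-l)
  refine ⟨ψ, h1, h2, ?_⟩
  intro w
  rw [h3, map_neg]
  rfl

/-- One step: a solution whose odd part vanishes below `N` can be changed into one whose odd part
vanishes below `N + 2`, without changing `FF a b`. -/
lemma step (hF1 : F1S) (hF2 : F2S) (hp0 : P0S) (hkv : KvS) (halte : AlteS) (hactz : ActzS)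
    (hacth : ActhS) (htel : TelS) (a b s : ℕ) (hs : 1 ≤ s) (γ : ℕ → k) (Z : List Bool → k)
    (h : Cyc.RegDS γ Z) (hv : OddVan (2 * s + 1) Z) :
    ∃ (γ' : ℕ → k) (Z' : List Bool → k), Cyc.RegDS γ' Z' ∧ OddVan (2 * (s + 1) + 1) Z' ∧
      FF a b Z' = FF a b Z := by
  have ho : Odd (2 * s + 1) := ⟨s, rfl⟩
  have hd := DM_neg (hF2 k (2 * s + 1) Z γ ho h hv)
  set p : List Bool → k := fun w => - part (2 * s + 1) Z w with hp
  obtain ⟨γ', h'⟩ := hF1 k (2 * s + 1) p Z γ ho (by omega) hd h
  refine ⟨γ', expA (2 * s + 1) p Z, h', ?_,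
    FF_expA hp0 hkv halte hactz hacth htel p Z h.one s a b hs hd⟩
  intro w hwo hwl
  by_cases hw : w.length < 2 * s + 1
  · rw [expA_of_zero _ _ _ _ fun Y => act_short _ _ _ _ hw]
    exact hv w hwo hw
  · have hlen : w.length = 2 * s + 1 := by
      obtain ⟨c, hc⟩ := hwo
      omega
    rw [expA_of_zero2]
    · rw [act_full _ _ _ _ hlen, h.one, hp]
      simp only [part, if_pos hlen]
      ring
    · intro e
      rw [e] at hlen
      simp at hlen
    · intro Y
      rw [act_full _ _ _ _ hlen, act_nil _ (by omega), mul_zero]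

/-- Zagier's formula for every solution of the regularised double shuffle relations. -/
theorem zagier (hF1 : F1S) (hF2 : F2S) (hp0 : P0S) (hkv : KvS) (halte : AlteS) (hactz : ActzS)
    (hacth : ActhS) (htel : TelS) (a b : ℕ) (γ : ℕ → k) (Z : List Bool → k)
    (h : Cyc.RegDS γ Z) : FF a b Z = 0 := by
  have key : ∀ m : ℕ, ∃ (γ' : ℕ → k) (Z' : List Bool → k), Cyc.RegDS γ' Z' ∧
      OddVan (2 * (m + 1) + 1) Z' ∧ FF a b Z' = FF a b Z := by
    intro m
    induction m with
    | zero =>
      refine ⟨γ, Z, h, ?_, rfl⟩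
      intro w ho hl
      obtain ⟨c, hc⟩ := ho
      have h1 : w.length = 1 := by omega
      obtain ⟨x, rfl⟩ := List.length_eq_one_iff.mp h1
      cases x
      · exact h.x0
      · exact h.x1
    | succ m ih =>
      obtain ⟨γ1, Z1, h1, h2, h3⟩ := ih
      obtain ⟨γ2, Z2, h4, h5, h6⟩ := step hF1 hF2 hp0 hkv halte hactz hacth htel a b (m + 1)
        (by omega) γ1 Z1 h1 h2
      exact ⟨γ2, Z2, h4, h5, h6.trans h3⟩
  obtain ⟨γ', Z', h1, h2, h3⟩ := key (a + b + 1)
  rw [← h3]
  unfold FF
  rw [h2 (BZ.hw a b) (by rw [hw_length]; exact ⟨_, rfl⟩) (by rw [hw_length]; omega)]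
  rw [Finset.sum_eq_zero, sub_zero]
  intro r hr
  rw [Finset.mem_range] at hr
  rw [h2 (List.replicate (2 * (r + 1)) false ++ [true])
    (by simp only [List.length_append, List.length_replicate, List.length_singleton]
        exact ⟨_, rfl⟩)
    (by simp only [List.length_append, List.length_replicate, List.length_singleton]; omega)]
  simp

end

end Pool.Agent.MP_a57f33_nt.GZ
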