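import Pool.Agent.Lib.MP_a57f33_nt.GZ.StmR
import Pool.Agent.Lib.MP_a57f33_nt.Codepth

/-!
Assembly of part R: Racinet's theorem, `s_ψ` is a coderivation for the stuffle coproduct.
-/

namespace Pool.Agent.MP_a57f33_nt.GZ

open Pool.Agent.MP_a57f33_nt
open TensorProduct

/-- `κ = (-1)^(N-1)/N (ψ | x₀^(N-1) x₁)`, for `N ≥ 2`. -/
noncomputable def kap (N : ℕ) (ψ : QX) : ℚ :=
  if 2 ≤ N then (-1) ^ (N - 1) / (N : ℚ) * coeff ψ (zs (N - 1) ++ [true]) else 0

lemma y1_pow_word (N : ℕ) : (FreeAlgebra.ι ℚ (1 : ℕ+)) ^ N = word (List.replicate N (1 : ℕ+)) := by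
  induction N with
  | zero => simp
  | succ N ih => rw [pow_succ', ih, List.replicate_succ, word_cons]

lemma toX_length (u : List ℕ+) : (toX u).length = (u.map fun n : ℕ+ => (n : ℕ)).sum := by
  induction u with
  | nil => rfl
  | cons n u ih =>
    have := n.pos
    simp only [toX, List.length_append, List.length_replicate, List.length_cons, ih,
      List.map_cons, List.sum_cons]
    omega

lemma kap_sign {ψ : QX} (h : ψ ∈ dm0) {N : ℕ} (hN : IsHom N ψ) :
    (-1 : ℚ) ^ (N + 1) * kap N ψ = kap N ψ := by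
  unfold kap
  split_ifs with h2
  · rcases Nat.even_or_odd N with he | ho
    · obtain ⟨m, rfl⟩ : ∃ m, N = m + 2 := ⟨N - 2, by omega⟩
      have hm : Even m := by
        rcases he with ⟨c, hc⟩
        exact ⟨c - 1, by omega⟩
      have := al_even (dm0_subset_DS1 h) hm hN
      unfold al at this
      rw [show m + 2 - 1 = m + 1 by omega, this]
      ring
    · have : Even (N + 1) := ho.add_one
      rw [this.neg_one_pow, one_mul]
  · ring

lemma starCoeff_hom {ψ : QX} {N : ℕ} (hN : IsHom N ψ) (u : List ℕ+) :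
    starCoeff ψ u = coeff ψ (toX u) + kap N ψ * (if List.replicate N (1 : ℕ+) = u then 1 else 0) := by
  unfold starCoeff kap
  congr 1
  by_cases hu : 2 ≤ u.length ∧ u = List.replicate u.length 1
  · rw [if_pos hu]
    by_cases hL : u.length = N
    · subst hL
      rw [if_pos hu.1, if_pos hu.2.symm, mul_one]
    · have h1 : coeff ψ (List.replicate (u.length - 1) false ++ [true]) = 0 := by
        apply hN
        simp only [List.length_append, List.length_replicate, List.length_singleton]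
        omega
      have h3 : ¬ List.replicate N (1 : ℕ+) = u := by
        intro e
        apply hL
        rw [← e, List.length_replicate]
      rw [h1, if_neg h3, mul_zero, mul_zero]
  · rw [if_neg hu]
    split_ifs with h2 h3
    · exfalso
      apply hu
      subst h3
      rw [List.length_replicate]
      exact ⟨h2, rfl⟩
    · ring
    · ring
    · ring

/-- Racinet's theorem, in terms of the operator `s_ψ` on `ℚ⟨Y⟩`. -/
theorem racinet (hends : EndsS) (hnil : NilS) (hxpl : XplS) (hrvx : RvxS) (hh0 : H0S) (hhj : HjS)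
    (hggk : GgkS) (hcod : CodS) (hprm : PrmS) (hgen : GenS) (hmul : MulS) (hsx : SxS) (hcf : CfS)
    {ψ : QX} (h : ψ ∈ dm0) {N : ℕ} (hN : IsHom N ψ) {p : QY} (hp : ∀ u, coeff p u = starCoeff ψ u)
    (hprim : PrimY p) :
    CoderY (sYst N p) ∧
    (∀ (W : QY) (u : List ℕ+), coeff (sYst N p W) u =
      coeff (sL ψ (inY W)) (toX u) + kap N ψ * coeff ((FreeAlgebra.ι ℚ (1 : ℕ+)) ^ N * W) u) ∧
    ∀ (W : QX) (u : List ℕ+), coeff (sL ψ (W * X0)) (toX u) = 0 := by
  set κ := kap N ψ with hκ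
  set y := (FreeAlgebra.ι ℚ (1 : ℕ+)) ^ N with hy
  set p0 := p - κ • y with hp0
  have hc0 : ∀ u, coeff p0 u = coeff ψ (toX u) := by
    intro u
    rw [hp0, coeff_sub, coeff_smul, hp, starCoeff_hom hN, hy, y1_pow_word, coeff_word]
    ring
  have hpp : p = p0 + κ • y := by rw [hp0]; abel
  have hhom : IsHomY N p0 := by
    intro u hu
    rw [hc0]
    apply hN
    rwa [toX_length]
  have hx := hxpl N ψ p0 h.1 hN h.2.1 hc0
  have hr := hrvx N ψ p0 h.1 hN hx
  have h00 : gg N p0 0 = 0 := hh0 N ψ p0 (hends ψ h) (lie_ins h.1).1 hx hr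
  have hnl := hnil N p0 hhom
  have hj := hhj N p0 hnl h00
  have hsign := kap_sign h hN
  have hgg : ∀ n : ℤ, gg N p n = gg N p0 n + κ • (y * yz n - yz n * y) := by
    intro n
    rw [hpp]
    exact hggk N p0 κ n hsign
  have hj' : ∀ j : ℕ, gg N p (-(j : ℤ)) = 0 := by
    intro j
    rw [hgg, hj]
    rcases Nat.eq_zero_or_pos j with rfl | hpos
    · simp [yz_zero]
    · rw [yz_neg _ (by omega)]
      simp
  have hco : CoderY (sYst N p) := by
    apply hmul p _ hprim
    apply hcod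
    exact hgen N p (hprm p hprim) hj'
  have hsx' := hsx N ψ p0 hx hr
  obtain ⟨hcf1, hcf2⟩ := hcf N ψ p0 (fun n : ℕ+ => gg N p0 ((n : ℕ) : ℤ)) hx hsx'
  refine ⟨hco, ?_, hcf2⟩
  intro W u
  rw [hcf1, ← coeff_smul, ← coeff_add]
  congr 1
  have hd : dY (fun n : ℕ+ => gg N p ((n : ℕ) : ℤ)) W =
      dY (fun n : ℕ+ => gg N p0 ((n : ℕ) : ℤ)) W + κ • (y * W - W * y) := by
    have e1 : (fun n : ℕ+ => gg N p ((n : ℕ) : ℤ)) = fun n : ℕ+ => gg N p0 ((n : ℕ) : ℤ) +
        ((κ • y) * FreeAlgebra.ι ℚ n - FreeAlgebra.ι ℚ n * (κ • y)) := by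
      funext n
      have e2 : yz ((n : ℕ) : ℤ) = FreeAlgebra.ι ℚ n := by
        rw [yz_nat]
        obtain ⟨m, hm⟩ := Nat.exists_eq_succ_of_ne_zero n.pos.ne'
        rw [hm]
        change FreeAlgebra.ι ℚ m.succPNat = _
        congr 1
        apply PNat.eq
        rw [hm]
        rfl
      rw [hgg, e2, smul_mul_assoc, mul_smul_comm, smul_sub]
    rw [e1, dY_add, dY_ad, smul_mul_assoc, mul_smul_comm, smul_sub]
  change W * p + dY (fun n : ℕ+ => gg N p ((n : ℕ) : ℤ)) W = _
  rw [hd]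
  conv_lhs => rw [hpp]
  rw [mul_add, mul_smul_comm, smul_sub]
  abel

end Pool.Agent.MP_a57f33_nt.GZ
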