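import Pool.Agent.Lib.MP_a57f33_nt.GZ.Defs

/-!
Basic rules for the derivations `dY g`, `pd` and the reversal `revY`.
-/

namespace Pool.Agent.MP_a57f33_nt.GZ

open Pool.Agent.MP_a57f33_nt
open TensorProduct

lemma dYHom_entries (g : ℕ+ → QY) (a : QY) :
    dYHom g a 0 0 = a ∧ dYHom g a 1 1 = a ∧ dYHom g a 1 0 = 0 := by
  induction a using FreeAlgebra.induction with
  | grade0 r =>
    simp [Algebra.algebraMap_eq_smul_one]
  | grade1 b => simp [dYHom]
  | mul a b ha hb =>
    simp [Matrix.mul_apply, Fin.sum_univ_two, ha.1, ha.2.1, ha.2.2, hb.1, hb.2.1, hb.2.2]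
  | add a b ha hb =>
    simp [ha.1, ha.2.1, ha.2.2, hb.1, hb.2.1, hb.2.2]

lemma dY_apply (g : ℕ+ → QY) (a : QY) : dY g a = dYHom g a 0 1 := rfl

lemma dY_mul (g : ℕ+ → QY) (a b : QY) : dY g (a * b) = dY g a * b + a * dY g b := by
  simp only [dY_apply, map_mul, Matrix.mul_apply, Fin.sum_univ_two, (dYHom_entries g a).1,
    (dYHom_entries g b).2.1]
  rw [add_comm]

lemma dY_one (g : ℕ+ → QY) : dY g 1 = 0 := by
  simp [dY_apply]

lemma dY_iota (g : ℕ+ → QY) (n : ℕ+) : dY g (FreeAlgebra.ι ℚ n) = g n := by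
  simp [dY_apply, dYHom]

lemma dY_yy (g : ℕ+ → QY) (n : ℕ) (h : 0 < n) : dY g (yy n) = g ⟨n, h⟩ := by
  obtain ⟨m, rfl⟩ := Nat.exists_eq_succ_of_ne_zero h.ne'
  exact dY_iota g _

/-- Two derivations of `ℚ⟨Y⟩` which agree on the letters are equal. -/
lemma dY_unique (g : ℕ+ → QY) (d : QY →ₗ[ℚ] QY) (h1 : d 1 = 0)
    (hm : ∀ a b, d (a * b) = d a * b + a * d b) (hι : ∀ n, d (FreeAlgebra.ι ℚ n) = g n) (a : QY) :
    d a = dY g a := by
  induction a using FreeAlgebra.induction with
  | grade0 r => rw [Algebra.algebraMap_eq_smul_one, map_smul, map_smul, h1, dY_one]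
  | grade1 n => rw [hι, dY_iota]
  | mul a b ha hb => rw [hm, dY_mul, ha, hb]
  | add a b ha hb => rw [map_add, map_add, ha, hb]

lemma dY_add (g g' : ℕ+ → QY) (a : QY) : dY (fun n => g n + g' n) a = dY g a + dY g' a := by
  have := dY_unique (fun n => g n + g' n) (dY g + dY g') (by simp [dY_one])
    (by intro a b; simp only [LinearMap.add_apply, dY_mul, add_mul, mul_add]; abel)
    (by intro n; simp [dY_iota]) a
  rw [← this]
  rfl

/-- The inner derivation `ad c`. -/
lemma dY_ad (c a : QY) : dY (fun n => c * FreeAlgebra.ι ℚ n - FreeAlgebra.ι ℚ n * c) a =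
    c * a - a * c := by
  have := dY_unique (fun n => c * FreeAlgebra.ι ℚ n - FreeAlgebra.ι ℚ n * c)
    (LinearMap.mulLeft ℚ c - LinearMap.mulRight ℚ c) (by simp)
    (by intro a b
        simp only [LinearMap.sub_apply, LinearMap.mulLeft_apply, LinearMap.mulRight_apply]
        noncomm_ring)
    (by intro n; simp) a
  rw [← this]
  simp

lemma pd_mul (a b : QY) : pd (a * b) = pd a * b + a * pd b := dY_mul _ a b

lemma pd_one : pd 1 = 0 := dY_one _

/-- `∂(y_{n+1}) = n y_n`, also for `n = 0`. -/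
lemma pd_yy_succ (n : ℕ) : pd (yy (n + 1)) = (n : ℚ) • yy n := by
  rw [pd, dY_yy _ _ (Nat.succ_pos n)]
  simp

lemma pd_yy_zero : pd (yy 0) = 0 := dY_one _

/-- `∂(y_m) = (m - 1) y_{m-1}` for all integers `m ≠ 0`. -/
lemma pd_yz (m : ℤ) (hm : m ≠ 0) : pd (yz m) = ((m : ℚ) - 1) • yz (m - 1) := by
  unfold yz
  by_cases h : 0 ≤ m
  · obtain ⟨n, rfl⟩ := Int.eq_ofNat_of_zero_le h
    obtain ⟨l, rfl⟩ := Nat.exists_eq_succ_of_ne_zero (by simpa using hm : n ≠ 0)
    rw [if_pos h, if_pos (by simp)]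
    have e1 : ((l.succ : ℕ) : ℤ).toNat = l + 1 := by simp
    have e2 : (((l.succ : ℕ) : ℤ) - 1).toNat = l := by simp
    rw [e1, e2, pd_yy_succ]
    simp
  · rw [if_neg h, if_neg (by omega)]
    simp

lemma pd_yz_zero : pd (yz 0) = 0 := by
  simp [yz, pd_yy_zero]

lemma yz_zero : yz 0 = 1 := by simp [yz, yy]

lemma yz_neg (m : ℤ) (h : m < 0) : yz m = 0 := by
  unfold yz
  rw [if_neg (by omega)]

lemma yz_nat (n : ℕ) : yz (n : ℤ) = yy n := by
  simp [yz]

lemma Fk_zero (p : QY) : Fk p 0 = p := rfl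

lemma Fk_succ (p : QY) (n : ℕ) : Fk p (n + 1) = (-(1 / ((n : ℚ) + 1))) • pd (Fk p n) := rfl

/-- `∂ F_k = - (k+1) F_{k+1}`. -/
lemma pd_Fk (p : QY) (n : ℕ) : pd (Fk p n) = (-((n : ℚ) + 1)) • Fk p (n + 1) := by
  rw [Fk_succ, smul_smul]
  have : -((n : ℚ) + 1) * -(1 / ((n : ℚ) + 1)) = 1 := by
    have h : ((n : ℚ) + 1) ≠ 0 := by positivity
    field_simp
  rw [this, one_smul]

lemma revY_apply (a : QY) : revY a =
    (FreeAlgebra.lift ℚ (fun n : ℕ+ => MulOpposite.op (FreeAlgebra.ι ℚ n)) a).unop := rfl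

lemma revY_mul (a b : QY) : revY (a * b) = revY b * revY a := by
  simp [revY_apply]

lemma revY_one : revY 1 = 1 := by simp [revY_apply]

lemma revY_iota (n : ℕ+) : revY (FreeAlgebra.ι ℚ n) = FreeAlgebra.ι ℚ n := by
  simp [revY_apply]

lemma revY_yy (n : ℕ) : revY (yy n) = yy n := by
  cases n with
  | zero => exact revY_one
  | succ n => exact revY_iota _

lemma revY_yz (m : ℤ) : revY (yz m) = yz m := by
  unfold yz
  split_ifs
  · exact revY_yy _
  · exact map_zero _

lemma revY_revY (a : QY) : revY (revY a) = a := by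
  induction a using FreeAlgebra.induction with
  | grade0 r =>
    rw [Algebra.algebraMap_eq_smul_one, map_smul, revY_one, map_smul, revY_one]
  | grade1 n => rw [revY_iota, revY_iota]
  | mul a b ha hb => rw [revY_mul, revY_mul, ha, hb]
  | add a b ha hb => rw [map_add, map_add, ha, hb]

lemma revY_word (u : List ℕ+) : revY (word u) = word u.reverse := by
  induction u with
  | nil => simp [revY_one]
  | cons n u ih =>
    rw [word_cons, revY_mul, ih, revY_iota, List.reverse_cons, word_append]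
    simp

lemma coeff_revY (a : QY) (u : List ℕ+) : coeff (revY a) u = coeff a u.reverse := by
  have : (coeffL u).comp revY = coeffL u.reverse := by
    apply linear_ext
    intro w
    simp only [LinearMap.comp_apply, coeffL_apply, revY_word, coeff_word]
    by_cases h : w = u.reverse
    · subst h; simp
    · rw [if_neg h, if_neg]
      rintro rfl
      simp at h
  exact LinearMap.congr_fun this a

/-- `∂` commutes with the reversal. -/
lemma pd_revY (a : QY) : pd (revY a) = revY (pd a) := by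
  have h : ∀ a : QY, revY (pd (revY a)) = pd a := by
    intro a
    have := dY_unique (fun n : ℕ+ => (((n : ℕ) : ℚ) - 1) • yy ((n : ℕ) - 1))
      (revY.comp (pd.comp revY)) (by simp [revY_one, pd_one])
      (by intro a b
          simp only [LinearMap.comp_apply, revY_mul, pd_mul, map_add, revY_revY]
          abel)
      (by intro n
          simp only [LinearMap.comp_apply, revY_iota]
          rw [pd, dY_iota, map_smul, revY_yy]) a
    exact this
  have := h a
  rw [← this, revY_revY]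

lemma revY_Fk (p : QY) (n : ℕ) : revY (Fk p n) = Fk (revY p) n := by
  induction n with
  | zero => rfl
  | succ n ih => rw [Fk_succ, Fk_succ, map_smul, ← pd_revY, ih]

lemma Fk_add (p q : QY) (n : ℕ) : Fk (p + q) n = Fk p n + Fk q n := by
  induction n with
  | zero => rfl
  | succ n ih => rw [Fk_succ, Fk_succ, Fk_succ, ih, map_add, smul_add]

lemma Fk_smul (r : ℚ) (p : QY) (n : ℕ) : Fk (r • p) n = r • Fk p n := by
  induction n with
  | zero => rfl
  | succ n ih => rw [Fk_succ, Fk_succ, ih, map_smul, smul_comm]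

lemma Fk_of_pd_zero {p : QY} (h : pd p = 0) (n : ℕ) : Fk p (n + 1) = 0 := by
  induction n with
  | zero => rw [Fk_succ, Fk_zero, h, smul_zero]
  | succ n ih => rw [Fk_succ, ih, map_zero, smul_zero]

lemma pd_y1_pow (n : ℕ) : pd ((FreeAlgebra.ι ℚ (1 : ℕ+)) ^ n) = 0 := by
  induction n with
  | zero => rw [pow_zero, pd_one]
  | succ n ih =>
    rw [pow_succ, pd_mul, ih, zero_mul, zero_add]
    have : pd (FreeAlgebra.ι ℚ (1 : ℕ+)) = 0 := by
      rw [pd, dY_iota]; simp
    rw [this, mul_zero]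

end Pool.Agent.MP_a57f33_nt.GZ
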