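import Pool.Agent.Lib.MP_a57f33_nt.BZ.Fin5
import Pool.Agent.Lib.MP_a57f33_nt.CycDS
import Pool.Agent.Lib.MP_a57f33_nt.IharaLemmas

/-!
Definitions for Zagier's formula from the regularised double shuffle relations.
-/

namespace Pool.Agent.MP_a57f33_nt.GZ

open Pool.Agent.MP_a57f33_nt
open TensorProduct

/-! ## Polynomials (part R) -/

/-- `s_ψ(W) = ψ W + D_ψ(W)`. -/
noncomputable def sL (ψ : QX) : QX →ₗ[ℚ] QX := LinearMap.mulLeft ℚ ψ + derL ψ

/-- The algebra map `W ↦ (W, d(W); 0, W)`, `d` the derivation of `ℚ⟨Y⟩` with `d(y_n) = g n`. -/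
noncomputable def dYHom (g : ℕ+ → QY) : QY →ₐ[ℚ] Matrix (Fin 2) (Fin 2) QY :=
  FreeAlgebra.lift ℚ fun n => !![FreeAlgebra.ι ℚ n, g n; 0, FreeAlgebra.ι ℚ n]

/-- The derivation `d` of `ℚ⟨Y⟩` with `d(y_n) = g n`. -/
noncomputable def dY (g : ℕ+ → QY) : QY →ₗ[ℚ] QY :=
  (Matrix.entryLinearMap ℚ QY (0 : Fin 2) (1 : Fin 2)).comp (dYHom g).toLinearMap

/-- The derivation `∂` of `ℚ⟨Y⟩` with `∂(y_n) = (n - 1) y_{n-1}`. -/
noncomputable def pd : QY →ₗ[ℚ] QY :=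
  dY fun n : ℕ+ => (((n : ℕ) : ℚ) - 1) • yy ((n : ℕ) - 1)

/-- `F_k = (-∂)^k / k!` applied to `p`. -/
noncomputable def Fk (p : QY) : ℕ → QY
  | 0 => p
  | n + 1 => (-(1 / ((n : ℚ) + 1))) • pd (Fk p n)

/-- The anti-automorphism of `ℚ⟨Y⟩` which fixes the letters. -/
noncomputable def revY : QY →ₗ[ℚ] QY :=
  (MulOpposite.opLinearEquiv ℚ).symm.toLinearMap.comp
    (FreeAlgebra.lift ℚ (fun n : ℕ+ => MulOpposite.op (FreeAlgebra.ι ℚ n))).toLinearMap

/-- `y_m` for an integer `m`; it is `1` for `m = 0` and `0` for `m < 0`. -/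
noncomputable def yz (m : ℤ) : QY := if 0 ≤ m then yy m.toNat else 0

/-- `∑_k (F_k y_{n+k} - (-1)^(N+1) y_{n+k} rev F_k)`, for an integer `n`. -/
noncomputable def gg (N : ℕ) (p : QY) (n : ℤ) : QY :=
  ∑ i ∈ Finset.range (N + 1),
    (Fk p i * yz (n + i) - ((-1 : ℚ) ^ (N + 1)) • (yz (n + i) * revY (Fk p i)))

/-- The operator `W ↦ W p + D''(W)`, `D''(y_n) = gg N p n`. -/
noncomputable def sYst (N : ℕ) (p : QY) : QY →ₗ[ℚ] QY :=
  LinearMap.mulRight ℚ p + dY fun n : ℕ+ => gg N p ((n : ℕ) : ℤ)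

/-- Only words of weight `N` occur in `p`. -/
def IsHomY (N : ℕ) (p : QY) : Prop :=
  ∀ u : List ℕ+, (u.map fun n : ℕ+ => (n : ℕ)).sum ≠ N → coeff p u = 0

/-- `p` is primitive for the stuffle coproduct. -/
def PrimY (p : QY) : Prop := Delta p = p ⊗ₜ[ℚ] 1 + 1 ⊗ₜ[ℚ] p

/-- `A` is a coderivation for the stuffle coproduct. -/
def CoderY (A : QY →ₗ[ℚ] QY) : Prop :=
  ∀ W : QY, Delta (A W) =
    TensorProduct.map A LinearMap.id (Delta W) + TensorProduct.map LinearMap.id A (Delta W)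

/-- The shuffle coproduct. -/
noncomputable def DeltaX : QX →ₐ[ℚ] QX ⊗[ℚ] QX :=
  FreeAlgebra.lift ℚ fun b : Bool =>
    FreeAlgebra.ι ℚ b ⊗ₜ[ℚ] 1 + 1 ⊗ₜ[ℚ] FreeAlgebra.ι ℚ b

/-! ## Functionals on words -/

section

variable {k : Type} [CommRing k]

/-- `(S_p Z)(w)` for `p` supported on words of length `N`: the sum over the factorisations
`w = a b c`, `|b| = N`, of `(χ(a) - χ'(c)) p(b) Z(ac)`, where `χ(a) = 1` if `a` is empty or ends
in `x₁`, and `χ'(c) = 1` if `c` starts with `x₁`. This is the coefficient of `w` in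
`s_p(∑ Z(v) v)`. -/
def act (N : ℕ) (p Z : List Bool → k) (w : List Bool) : k :=
  ∑ i ∈ Finset.range (w.length + 1 - N),
    ((if i = 0 ∨ w[i - 1]? = some true then 1 else 0) -
        (if w[i + N]? = some true then 1 else 0)) *
      p ((w.drop i).take N) * Z (w.take i ++ w.drop (i + N))

/-- `exp(S_p) Z`. -/
noncomputable def expA [Algebra ℚ k] (N : ℕ) (p Z : List Bool → k) (w : List Bool) : k :=
  ∑ n ∈ Finset.range (w.length + 1), ((n.factorial : ℚ)⁻¹) • ((act N p)^[n] Z w)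

/-- `p` is the coefficient function of an element of weight `N` of `dm₀ ⊗ k`. -/
def DM [Algebra ℚ k] (N : ℕ) (p : List Bool → k) : Prop :=
  ∀ l : k →ₗ[ℚ] ℚ, ∃ ψ ∈ dm0, IsHom N ψ ∧ ∀ w, coeff ψ w = l (p w)

/-- `Z` vanishes on all words of odd length less than `N`. -/
def OddVan (N : ℕ) (Z : List Bool → k) : Prop :=
  ∀ w : List Bool, Odd w.length → w.length < N → Z w = 0

/-- `Z` on words of length `N`, zero on the others. -/
def part (N : ℕ) (Z : List Bool → k) (w : List Bool) : k := if w.length = N then Z w else 0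

/-- The coefficient `2 (-1)^r [C(2r, 2a+2) - (1 - 2^(-2r)) C(2r, 2b+1)]`. -/
def cz (r a b : ℕ) : ℚ :=
  2 * (-1) ^ r * (((2 * r).choose (2 * a + 2) : ℚ) -
    (1 - 1 / 2 ^ (2 * r)) * ((2 * r).choose (2 * b + 1) : ℚ))

end

end Pool.Agent.MP_a57f33_nt.GZ
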