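import Pool.Agent.Lib.MP_a57f33_nt.GZ.StmD

/-!
# The piece acth: the action on the words of Zagier's formula
-/

namespace Pool.Agent.MP_a57f33_nt.GZ

open Pool.Agent.MP_a57f33_nt

theorem acth_len (c : Bool) (n : ℕ) : (BZ.alt c n).length = n := by
  induction n generalizing c with
  | zero => rfl
  | succ n ih => simp [BZ.alt, ih]

theorem acth_even (c : Bool) (m n : ℕ) :
    BZ.alt c (2 * m + n) = BZ.alt c (2 * m) ++ BZ.alt c n := by
  induction m with
  | zero => simp [BZ.alt]
  | succ m ih =>
    have e1 : 2 * (m + 1) + n = (2 * m + n) + 1 + 1 := by ring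
    have e2 : 2 * (m + 1) = 2 * m + 1 + 1 := by ring
    rw [e1, e2]
    simp only [BZ.alt, Bool.not_not, List.cons_append, ih]

theorem acth_odd (c : Bool) (m n : ℕ) :
    BZ.alt c (2 * m + 1 + n) = BZ.alt c (2 * m + 1) ++ BZ.alt (!c) n := by
  have e1 : 2 * m + 1 + n = 2 * m + (n + 1) := by ring
  rw [e1, acth_even c m (n + 1), acth_even c m 1]
  simp [BZ.alt]

/-- The value of `χ`. -/
def acth_chi (u : List Bool) : Prop := u = [] ∨ u.getLast? = some true

/-- The value of `χ'`. -/
def acth_chi' (v : List Bool) : Prop := v.head? = some true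

theorem acth_chi_even (m : ℕ) : acth_chi (BZ.alt false (2 * m)) := by
  rcases m with _ | m
  · exact Or.inl rfl
  · right
    have e : 2 * (m + 1) = 2 * m + 2 := by ring
    rw [e, acth_even]
    simp [BZ.alt]

theorem acth_nchi_odd (m : ℕ) : ¬ acth_chi (BZ.alt false (2 * m + 1)) := by
  rw [acth_even]
  simp [BZ.alt, acth_chi]

theorem acth_chi_app (u : List Bool) (m : ℕ) :
    acth_chi (u ++ BZ.alt false (2 * (m + 1))) := by
  right
  have e : 2 * (m + 1) = 2 * m + 2 := by ring
  rw [e, acth_even]
  simp [BZ.alt]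

theorem acth_nchi_app (u : List Bool) (m : ℕ) :
    ¬ acth_chi (u ++ BZ.alt false (2 * m + 1)) := by
  rw [acth_even]
  simp [BZ.alt, acth_chi]

theorem acth_chi'_true (m : ℕ) (v : List Bool) : acth_chi' (BZ.alt true (m + 1) ++ v) := by
  simp [BZ.alt, acth_chi']

theorem acth_nchi'_false (m : ℕ) (v : List Bool) : ¬ acth_chi' (BZ.alt false (m + 1) ++ v) := by
  simp [BZ.alt, acth_chi']

theorem acth_nchi'_false' (m : ℕ) : ¬ acth_chi' (BZ.alt false m) := by
  rcases m with _ | m <;> simp [BZ.alt, acth_chi']

open Classical in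
theorem acth_term {k : Type} [CommRing k] (N i : ℕ) (p Z : List Bool → k) (w u f v : List Bool)
    (hw : w = u ++ (f ++ v)) (hi : u.length = i) (hf : f.length = N) :
    ((if i = 0 ∨ w[i - 1]? = some true then 1 else 0) -
        (if w[i + N]? = some true then 1 else 0)) *
      p ((w.drop i).take N) * Z (w.take i ++ w.drop (i + N)) =
    ((if acth_chi u then 1 else 0) - (if acth_chi' v then 1 else 0)) * p f * Z (u ++ v) := by
  subst hw hi hf
  have h1 : (u.length = 0 ∨ (u ++ (f ++ v))[u.length - 1]? = some true) ↔ acth_chi u := by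
    unfold acth_chi
    rcases u with _ | ⟨x, u⟩
    · simp
    · have e : (x :: u ++ (f ++ v))[(x :: u).length - 1]? = (x :: u)[(x :: u).length - 1]? :=
        List.getElem?_append_left (by simp)
      rw [e, List.getLast?_eq_getElem?]
      simp
  have h2 : ((u ++ (f ++ v))[u.length + f.length]? = some true) ↔ acth_chi' v := by
    unfold acth_chi'
    rw [List.getElem?_append_right (by omega), List.getElem?_append_right (by omega),
      List.head?_eq_getElem?]
    simp
  have h3 : ((u ++ (f ++ v)).drop u.length).take f.length = f := by simp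
  have h4 : (u ++ (f ++ v)).take u.length = u := by simp
  have h5 : (u ++ (f ++ v)).drop (u.length + f.length) = v := by
    rw [← List.append_assoc]
    have : u.length + f.length = (u ++ f).length := by simp
    rw [this, List.drop_left]
  rw [h3, h4, h5]
  simp only [h1, h2]

theorem acth_split {k : Type} [CommRing k] (T : ℕ → k) (m : ℕ) :
    ∑ i ∈ Finset.range (2 * m + 1), T i =
      ∑ j ∈ Finset.range (m + 1), T (2 * j) + ∑ j ∈ Finset.range m, T (2 * j + 1) := by
  induction m with
  | zero => simp
  | succ m ih =>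
    have e : 2 * (m + 1) + 1 = 2 * m + 1 + 1 + 1 := by ring
    rw [e, Finset.sum_range_succ, Finset.sum_range_succ, ih, Finset.sum_range_succ (n := m + 1),
      Finset.sum_range_succ (fun j => T (2 * j + 1)) m]
    have e2 : 2 * m + 1 + 1 = 2 * (m + 1) := by ring
    rw [e2]
    ring

theorem acth_swap {k : Type} [CommRing k] (A B : ℕ) (C : ℕ → Prop) [DecidablePred C] (f : ℕ → k) :
    ∑ j ∈ Finset.range A, (if j < B ∧ C j then f j else 0) =
      ∑ j ∈ Finset.range B, (if j < A ∧ C j then f j else 0) := by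
  rw [← Finset.sum_filter, ← Finset.sum_filter]
  congr 1
  ext j
  simp only [Finset.mem_filter, Finset.mem_range]
  tauto

theorem acth_even_term {k : Type} [CommRing k] (p Z : List Bool → k) (r a b j : ℕ)
    (_hr : 1 ≤ r) (h : r ≤ a + b + 1) (hj : j ≤ a + b + 1 - r) (w : List Bool)
    (hw : w = BZ.alt false (2 * b + 1) ++ BZ.alt false (2 * a + 2)) :
    ((if 2 * j = 0 ∨ w[2 * j - 1]? = some true then 1 else 0) -
        (if w[2 * j + (2 * r + 1)]? = some true then 1 else 0)) *
      p ((w.drop (2 * j)).take (2 * r + 1)) *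
        Z (w.take (2 * j) ++ w.drop (2 * j + (2 * r + 1))) =
    ((if j + r = b then p (BZ.alt false (2 * r + 1)) else 0) +
      (if j < b + 1 ∧ b < j + r then
        p (BZ.alt false (2 * (b - j) + 1) ++ BZ.alt false (2 * (r - (b - j)))) else 0)) *
      Z (BZ.alt false (2 * (a + b + 1 - r))) := by
  classical
  rcases lt_trichotomy (j + r) b with h1 | h1 | h1
  · -- before the middle
    obtain ⟨t, ht⟩ : ∃ t, b = j + r + (t + 1) := ⟨b - j - r - 1, by omega⟩
    rw [acth_term (2 * r + 1) (2 * j) p Z w (BZ.alt false (2 * j)) (BZ.alt false (2 * r + 1))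
      (BZ.alt true (2 * t + 1 + 1) ++ BZ.alt false (2 * a + 2)) ?_ (acth_len _ _) (acth_len _ _),
      if_pos (acth_chi_even j), if_pos (acth_chi'_true _ _), if_neg (by omega), if_neg (by omega)]
    · ring
    · rw [hw, ← List.append_assoc, ← List.append_assoc]
      congr 1
      have e : 2 * b + 1 = 2 * j + (2 * r + 1 + (2 * t + 1 + 1)) := by rw [ht]; ring
      rw [e, acth_even, acth_odd]
      simp
  · -- the factor ends at the middle
    rw [acth_term (2 * r + 1) (2 * j) p Z w (BZ.alt false (2 * j)) (BZ.alt false (2 * r + 1))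
      (BZ.alt false (2 * a + 1 + 1)) ?_ (acth_len _ _) (acth_len _ _),
      if_pos (acth_chi_even j), if_neg (acth_nchi'_false' _), if_pos h1, if_neg (by omega)]
    · have e : 2 * (a + b + 1 - r) = 2 * j + (2 * a + 1 + 1) := by omega
      rw [e, acth_even false j (2 * a + 1 + 1)]
      ring
    · rw [hw, ← List.append_assoc]
      congr 1
      have e : 2 * b + 1 = 2 * j + (2 * r + 1) := by omega
      rw [e, acth_even]
  · rcases Nat.lt_or_ge b j with h2 | h2
    · -- after the middle
      obtain ⟨t, ht⟩ : ∃ t, j = b + (t + 1) := ⟨j - b - 1, by omega⟩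
      obtain ⟨q, hq⟩ : ∃ q, a = t + r + q := ⟨a - t - r, by omega⟩
      rw [acth_term (2 * r + 1) (2 * j) p Z w
        (BZ.alt false (2 * b + 1) ++ BZ.alt false (2 * t + 1)) (BZ.alt true (2 * r + 1))
        (BZ.alt false (2 * q)) ?_ ?_ (acth_len _ _),
        if_neg (acth_nchi_app _ _), if_neg (acth_nchi'_false' _), if_neg (by omega),
        if_neg (by omega)]
      · ring
      · rw [hw, List.append_assoc]
        congr 1
        have e : 2 * a + 2 = 2 * t + 1 + (2 * r + 1 + 2 * q) := by rw [hq]; ring
        rw [e, acth_odd, acth_odd]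
        simp
      · rw [List.length_append, acth_len, acth_len]
        omega
    · -- the factor contains the middle
      obtain ⟨β, hβ⟩ : ∃ β, b = j + β := ⟨b - j, by omega⟩
      obtain ⟨q, hq⟩ : ∃ q, r = β + q := ⟨r - β, by omega⟩
      obtain ⟨s, hs⟩ : ∃ s, a + 1 = q + s := ⟨a + 1 - q, by omega⟩
      have eb : b - j = β := by omega
      have er : r - β = q := by omega
      have c1 : ¬ (j + r = b) := by omega
      have c2 : j < b + 1 ∧ b < j + r := ⟨by omega, h1⟩
      rw [acth_term (2 * r + 1) (2 * j) p Z w (BZ.alt false (2 * j))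
        (BZ.alt false (2 * β + 1) ++ BZ.alt false (2 * q)) (BZ.alt false (2 * s)) ?_
        (acth_len _ _) ?_, if_pos (acth_chi_even j), if_neg (acth_nchi'_false' _),
        if_neg c1, if_pos c2, eb, er]
      · have e : 2 * (a + b + 1 - r) = 2 * j + 2 * s := by omega
        rw [e, acth_even false j (2 * s)]
        ring
      · have e1 : 2 * b + 1 = 2 * j + (2 * β + 1) := by omega
        have e2 : 2 * a + 2 = 2 * q + 2 * s := by omega
        rw [hw, e1, e2, acth_even false j (2 * β + 1), acth_even false q (2 * s)]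
        simp
      · rw [List.length_append, acth_len, acth_len]
        omega

theorem acth_odd_term {k : Type} [CommRing k] (p Z : List Bool → k) (r a b j : ℕ)
    (hr : 1 ≤ r) (h : r ≤ a + b + 1) (hj : j < a + b + 1 - r) (w : List Bool)
    (hw : w = BZ.alt false (2 * b + 1) ++ BZ.alt false (2 * a + 2)) :
    ((if 2 * j + 1 = 0 ∨ w[2 * j + 1 - 1]? = some true then 1 else 0) -
        (if w[2 * j + 1 + (2 * r + 1)]? = some true then 1 else 0)) *
      p ((w.drop (2 * j + 1)).take (2 * r + 1)) *
        Z (w.take (2 * j + 1) ++ w.drop (2 * j + 1 + (2 * r + 1))) =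
    (-(if j = b then p (BZ.alt false (2 * r + 1)) else 0) -
      (if j < b + 1 ∧ (j < b ∧ b ≤ j + r) then
        p (BZ.alt true (2 * (b - j)) ++ BZ.alt false (2 * (r - (b - j)) + 1)) else 0)) *
      Z (BZ.alt false (2 * (a + b + 1 - r))) := by
  classical
  rcases lt_trichotomy j b with h1 | h1 | h1
  · rcases Nat.lt_or_ge (j + r) b with h2 | h2
    · -- before the middle
      obtain ⟨t, ht⟩ : ∃ t, b = j + r + (t + 1) := ⟨b - j - r - 1, by omega⟩
      rw [acth_term (2 * r + 1) (2 * j + 1) p Z w (BZ.alt false (2 * j + 1))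
        (BZ.alt true (2 * r + 1)) (BZ.alt false (2 * t + 1) ++ BZ.alt false (2 * a + 2)) ?_
        (acth_len _ _) (acth_len _ _), if_neg (acth_nchi_odd j), if_neg (acth_nchi'_false _ _),
        if_neg (by omega), if_neg (by omega)]
      · ring
      · rw [hw, ← List.append_assoc, ← List.append_assoc]
        congr 1
        have e : 2 * b + 1 = 2 * j + 1 + (2 * r + 1 + (2 * t + 1)) := by rw [ht]; ring
        rw [e, acth_odd, acth_odd]
        simp
    · -- the factor contains the middle
      obtain ⟨β, hβ⟩ : ∃ β, b = j + β := ⟨b - j, by omega⟩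
      obtain ⟨q, hq⟩ : ∃ q, r = β + q := ⟨r - β, by omega⟩
      obtain ⟨s, hs⟩ : ∃ s, a = q + s := ⟨a - q, by omega⟩
      have eb : b - j = β := by omega
      have er : r - β = q := by omega
      have c1 : ¬ (j = b) := by omega
      have c2 : j < b + 1 ∧ (j < b ∧ b ≤ j + r) := ⟨by omega, h1, h2⟩
      rw [acth_term (2 * r + 1) (2 * j + 1) p Z w (BZ.alt false (2 * j + 1))
        (BZ.alt true (2 * β) ++ BZ.alt false (2 * q + 1)) (BZ.alt true (2 * s + 1) ++ []) ?_
        (acth_len _ _) ?_, if_neg (acth_nchi_odd j), if_pos (acth_chi'_true _ _),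
        if_neg c1, if_pos c2, eb, er]
      · have e : 2 * (a + b + 1 - r) = 2 * j + 1 + (2 * s + 1) := by omega
        rw [e, acth_odd false j (2 * s + 1), List.append_nil]
        simp only [Bool.not_false]
        ring
      · have e1 : 2 * b + 1 = 2 * j + 1 + 2 * β := by omega
        have e2 : 2 * a + 2 = 2 * q + 1 + (2 * s + 1) := by omega
        rw [hw, e1, e2, acth_odd, acth_odd]
        simp
      · rw [List.length_append, acth_len, acth_len]
        omega
  · -- the factor starts after the middle letter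
    subst h1
    obtain ⟨q, hq⟩ : ∃ q, a = r + q := ⟨a - r, by omega⟩
    have c2 : ¬ (j < j + 1 ∧ (j < j ∧ j ≤ j + r)) := by omega
    rw [acth_term (2 * r + 1) (2 * j + 1) p Z w (BZ.alt false (2 * j + 1))
      (BZ.alt false (2 * r + 1)) (BZ.alt true (2 * q + 1) ++ []) ?_
      (acth_len _ _) (acth_len _ _), if_neg (acth_nchi_odd j), if_pos (acth_chi'_true _ _),
      if_pos rfl, if_neg c2]
    · have e : 2 * (a + j + 1 - r) = 2 * j + 1 + (2 * q + 1) := by omega
      rw [e, acth_odd false j (2 * q + 1), List.append_nil]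
      simp only [Bool.not_false]
      ring
    · have e2 : 2 * a + 2 = 2 * r + 1 + (2 * q + 1) := by omega
      rw [hw, e2, acth_odd]
      simp
  · -- after the middle
    obtain ⟨t, ht⟩ : ∃ t, j = b + (t + 1) := ⟨j - b - 1, by omega⟩
    obtain ⟨q, hq⟩ : ∃ q, a = t + 1 + r + q := ⟨a - t - 1 - r, by omega⟩
    rw [acth_term (2 * r + 1) (2 * j + 1) p Z w
      (BZ.alt false (2 * b + 1) ++ BZ.alt false (2 * (t + 1))) (BZ.alt false (2 * r + 1))
      (BZ.alt true (2 * q + 1) ++ []) ?_ ?_ (acth_len _ _),
      if_pos (acth_chi_app _ _), if_pos (acth_chi'_true _ _), if_neg (by omega),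
      if_neg (by omega)]
    · ring
    · rw [hw, List.append_assoc]
      congr 1
      have e : 2 * a + 2 = 2 * (t + 1) + (2 * r + 1 + (2 * q + 1)) := by omega
      rw [e, acth_even, acth_odd]
      simp
    · rw [List.length_append, acth_len, acth_len]
      omega

theorem p_acth : ActhS := by
  intro k _ p Z r a b hr h
  have hlen : (BZ.alt false (2 * b + 1) ++ BZ.alt false (2 * a + 2)).length + 1 - (2 * r + 1) =
      2 * (a + b + 1 - r) + 1 := by
    rw [List.length_append, acth_len, acth_len]
    omega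
  unfold act
  rw [hlen, acth_split,
    Finset.sum_congr rfl fun j hj => acth_even_term p Z r a b j hr h
      (by rw [Finset.mem_range] at hj; omega) _ rfl,
    Finset.sum_congr rfl fun j hj => acth_odd_term p Z r a b j hr h
      (by rw [Finset.mem_range] at hj; omega) _ rfl,
    ← Finset.sum_mul, ← Finset.sum_mul, ← add_mul, Finset.sum_add_distrib,
    Finset.sum_sub_distrib, Finset.sum_neg_distrib, acth_swap (a + b + 1 - r + 1) (b + 1),
    acth_swap (a + b + 1 - r) (b + 1)]
  have s1 : ∑ j ∈ Finset.range (a + b + 1 - r + 1),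
      (if j + r = b then p (BZ.alt false (2 * r + 1)) else 0) =
      if r ≤ b then p (BZ.alt false (2 * r + 1)) else 0 := by
    by_cases hb : r ≤ b
    · rw [if_pos hb, Finset.sum_eq_single (b - r)]
      · rw [if_pos (by omega)]
      · intro j _ hj
        rw [if_neg (by omega)]
      · intro hj
        rw [Finset.mem_range] at hj
        omega
    · rw [if_neg hb]
      refine Finset.sum_eq_zero fun j _ => ?_
      rw [if_neg (by omega)]
  have s2 : ∑ j ∈ Finset.range (a + b + 1 - r),
      (if j = b then p (BZ.alt false (2 * r + 1)) else 0) =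
      if r ≤ a then p (BZ.alt false (2 * r + 1)) else 0 := by
    by_cases hb : r ≤ a
    · rw [if_pos hb, Finset.sum_eq_single b]
      · rw [if_pos rfl]
      · intro j _ hj
        rw [if_neg hj]
      · intro hj
        rw [Finset.mem_range] at hj
        omega
    · rw [if_neg hb]
      refine Finset.sum_eq_zero fun j hj => ?_
      rw [Finset.mem_range] at hj
      rw [if_neg (by omega)]
  have s3 : ∑ j ∈ Finset.range (b + 1), (if j < a + b + 1 - r + 1 ∧ b < j + r then
        p (BZ.alt false (2 * (b - j) + 1) ++ BZ.alt false (2 * (r - (b - j)))) else 0) =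
      ∑ β ∈ Finset.range (b + 1), (if β < r ∧ r ≤ a + β + 1 then
          p (BZ.alt false (2 * β + 1) ++ BZ.alt false (2 * (r - β))) else 0) := by
    rw [← Finset.sum_range_reflect (fun β => if β < r ∧ r ≤ a + β + 1 then
          p (BZ.alt false (2 * β + 1) ++ BZ.alt false (2 * (r - β))) else 0) (b + 1)]
    refine Finset.sum_congr rfl fun j hj => ?_
    rw [Finset.mem_range] at hj
    have e : b + 1 - 1 - j = b - j := by omega
    simp only [e]
    refine if_congr ?_ rfl rfl
    omega
  have s4 : ∑ j ∈ Finset.range (b + 1), (if j < a + b + 1 - r ∧ (j < b ∧ b ≤ j + r) then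
        p (BZ.alt true (2 * (b - j)) ++ BZ.alt false (2 * (r - (b - j)) + 1)) else 0) =
      ∑ β ∈ Finset.range (b + 1), (if 1 ≤ β ∧ β ≤ r ∧ r ≤ a + β then
          p (BZ.alt true (2 * β) ++ BZ.alt false (2 * (r - β) + 1)) else 0) := by
    rw [← Finset.sum_range_reflect (fun β => if 1 ≤ β ∧ β ≤ r ∧ r ≤ a + β then
          p (BZ.alt true (2 * β) ++ BZ.alt false (2 * (r - β) + 1)) else 0) (b + 1)]
    refine Finset.sum_congr rfl fun j hj => ?_
    rw [Finset.mem_range] at hj
    have e : b + 1 - 1 - j = b - j := by omega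
    simp only [e]
    refine if_congr ?_ rfl rfl
    omega
  rw [s1, s2, s3, s4]
  ring

end Pool.Agent.MP_a57f33_nt.GZ
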