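import Pool.Agent.Lib.MP_a57f33_nt.GZ.StmD

/-!
# MP_a57f33_nt, project GZ: the action on `x₀^m x₁`
-/

namespace Pool.Agent.MP_a57f33_nt.GZ

open Pool.Agent.MP_a57f33_nt

theorem actz_take (m i N : ℕ) (h : i + N ≤ m) :
    ((List.replicate m false ++ [true]).drop i).take N = List.replicate N false := by
  rw [List.drop_append_of_le_length (by simp; omega),
    List.take_append_of_le_length (by simp; omega), List.drop_replicate, List.take_replicate]
  congr 1
  omega

theorem p_actz : ActzS := by
  intro k _ N p Z hN hp m
  have hlen : (List.replicate m false ++ [true]).length = m + 1 := by simp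
  have hnone : (List.replicate m false ++ [true])[m + 1]? = none := by
    rw [List.getElem?_eq_none_iff]
    omega
  unfold act
  rw [hlen]
  by_cases h : m + 1 = N
  · subst h
    rw [if_pos rfl]
    have e : m + 1 + 1 - (m + 1) = 1 := by omega
    rw [e, Finset.sum_range_one, Nat.zero_add, hnone]
    have e1 : ((List.replicate m false ++ [true]).drop 0).take (m + 1) =
        List.replicate m false ++ [true] := by
      rw [List.drop_zero, List.take_of_length_le (by simp)]
    have e2 : (List.replicate m false ++ [true]).take 0 ++
        (List.replicate m false ++ [true]).drop (m + 1) = [] := by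
      rw [List.take_zero, List.drop_of_length_le (by simp)]
      rfl
    rw [e1, e2]
    simp
  · rw [if_neg h]
    apply Finset.sum_eq_zero
    intro i hi
    rw [Finset.mem_range] at hi
    by_cases h2 : i + N ≤ m
    · rw [actz_take m i N h2, hp]
      simp
    · have h3 : i + N = m + 1 := by omega
      have h4 : i ≠ 0 := by omega
      have h5 : (List.replicate m false ++ [true])[i - 1]? = some false := by
        rw [List.getElem?_append_left (by simp; omega), List.getElem?_replicate, if_pos (by omega)]
      rw [h3, hnone, h5]
      simp [h4]

end Pool.Agent.MP_a57f33_nt.GZ
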