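import Pool.Agent.Lib.MP_a57f33_nt.GZ.StmD

/-!
# [af] the dictionary between `act` and `sL`
-/

namespace Pool.Agent.MP_a57f33_nt.GZ

open Pool.Agent.MP_a57f33_nt

/-- Convolution with a function supported on the words of length `N`. -/
theorem af_conv (N : ℕ) : ∀ (w : List Bool) (f g : List Bool → ℚ),
    (∀ t : List Bool, t.length ≠ N → f t = 0) →
    conv w f g = if N ≤ w.length then f (w.take N) * g (w.drop N) else 0 := by
  induction N with
  | zero =>
    intro w f g hf
    rw [conv_delta_left w (f []) f g rfl (fun t ht => hf t (by simpa using ht))]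
    simp
  | succ N ih =>
    intro w f g hf
    cases w with
    | nil => simp [conv, hf [] (by simp)]
    | cons b w =>
      rw [conv, hf [] (by simp), zero_mul, zero_add,
        ih w (fun t => f (b :: t)) g (fun t ht => hf _ (by simpa using ht))]
      simp

/-- The coefficients of a product whose first factor is homogeneous. -/
theorem af_mul {N : ℕ} {ψ : QX} (h : IsHom N ψ) (φ : QX) (w : List Bool) :
    coeff (ψ * φ) w = if N ≤ w.length then coeff ψ (w.take N) * coeff φ (w.drop N) else 0 := by
  rw [coeff_mul, af_conv N w _ _ h]

/-- The sum for the derivation `D_p`. -/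
def af_dact (N : ℕ) (p Z : List Bool → ℚ) (w : List Bool) : ℚ :=
  ∑ i ∈ Finset.range (w.length + 1 - N),
    ((if i ≠ 0 ∧ w[i - 1]? = some true then 1 else 0) -
        (if w[i + N]? = some true then 1 else 0)) *
      p ((w.drop i).take N) * Z (w.take i ++ w.drop (i + N))

theorem af_act (N : ℕ) (p Z : List Bool → ℚ) (w : List Bool) :
    act N p Z w = af_dact N p Z w +
      if N ≤ w.length then p (w.take N) * Z (w.drop N) else 0 := by
  unfold act af_dact
  by_cases h : N ≤ w.length
  · rw [if_pos h]
    obtain ⟨m, hm⟩ : ∃ m, w.length + 1 - N = m + 1 := ⟨w.length - N, by omega⟩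
    rw [hm, Finset.sum_range_succ', Finset.sum_range_succ']
    have e : ∀ i : ℕ, ((if i + 1 = 0 ∨ w[i + 1 - 1]? = some true then (1 : ℚ) else 0)) =
        (if i + 1 ≠ 0 ∧ w[i + 1 - 1]? = some true then (1 : ℚ) else 0) := by
      intro i
      simp
    have x0 : (if (0 : ℕ) = 0 ∨ w[0 - 1]? = some true then (1 : ℚ) else 0) = 1 :=
      if_pos (Or.inl rfl)
    have y0 : (if (0 : ℕ) ≠ 0 ∧ w[0 - 1]? = some true then (1 : ℚ) else 0) = 0 :=
      if_neg (by simp)
    rw [x0, y0]
    simp only [e]
    simp only [List.drop_zero, List.take_zero, List.nil_append, zero_add]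
    ring
  · rw [if_neg h, show w.length + 1 - N = 0 by omega]
    simp

theorem af_dact_cons (N : ℕ) (p Z : List Bool → ℚ) (b : Bool) (u : List Bool) :
    af_dact N p Z (b :: u) =
      (if N ≤ u.length + 1 ∧ (b :: u)[N]? = some true then
        - (p ((b :: u).take N) * Z ((b :: u).drop N)) else 0) +
      af_dact N p (fun t => Z (b :: t)) u +
      (if b = true ∧ N ≤ u.length then p (u.take N) * Z (b :: u.drop N) else 0) := by
  unfold af_dact
  by_cases h : N ≤ u.length + 1
  · rw [List.length_cons, show u.length + 1 + 1 - N = (u.length + 1 - N) + 1 by omega,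
      Finset.sum_range_succ']
    have e0 : ((if (0 : ℕ) ≠ 0 ∧ (b :: u)[0 - 1]? = some true then (1 : ℚ) else 0) -
        (if (b :: u)[0 + N]? = some true then 1 else 0)) *
      p (((b :: u).drop 0).take N) * Z ((b :: u).take 0 ++ (b :: u).drop (0 + N)) =
      (if N ≤ u.length + 1 ∧ (b :: u)[N]? = some true then
        - (p ((b :: u).take N) * Z ((b :: u).drop N)) else 0) := by
      rw [if_neg (by simp : ¬ ((0 : ℕ) ≠ 0 ∧ (b :: u)[0 - 1]? = some true))]
      simp only [h, true_and, zero_add, List.drop_zero, List.take_zero, List.nil_append]
      by_cases h2 : (b :: u)[N]? = some true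
      · rw [if_pos h2, if_pos h2]; ring
      · rw [if_neg h2, if_neg h2]; ring
    rw [e0]
    have e1 : ∀ i ∈ Finset.range (u.length + 1 - N),
        ((if i + 1 ≠ 0 ∧ (b :: u)[i + 1 - 1]? = some true then (1 : ℚ) else 0) -
        (if (b :: u)[i + 1 + N]? = some true then 1 else 0)) *
      p (((b :: u).drop (i + 1)).take N) *
        Z ((b :: u).take (i + 1) ++ (b :: u).drop (i + 1 + N)) =
      ((if i ≠ 0 ∧ u[i - 1]? = some true then 1 else 0) -
        (if u[i + N]? = some true then 1 else 0)) *
      p ((u.drop i).take N) * Z (b :: (u.take i ++ u.drop (i + N))) +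
      (if i = 0 then (if b = true then 1 else 0) * p (u.take N) * Z (b :: u.drop N) else 0) := by
      intro i _
      have e2 : (b :: u)[i + 1 + N]? = u[i + N]? := by
        rw [show i + 1 + N = (i + N) + 1 by omega, List.getElem?_cons_succ]
      have e3 : (b :: u).drop (i + 1 + N) = u.drop (i + N) := by
        rw [show i + 1 + N = (i + N) + 1 by omega, List.drop_succ_cons]
      rw [e2, e3, List.drop_succ_cons, List.take_succ_cons, List.cons_append]
      cases i with
      | zero =>
        simp only [zero_add, ne_eq, one_ne_zero, not_false_eq_true, true_and, not_true_eq_false,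
          false_and, if_false, if_true, List.drop_zero, List.take_zero, List.nil_append]
        by_cases h2 : u[N]? = some true
        · cases b <;> simp [h2]
        · cases b <;> simp [h2]
      | succ i =>
        simp
    rw [Finset.sum_congr rfl e1, Finset.sum_add_distrib]
    have e4 : ∑ i ∈ Finset.range (u.length + 1 - N),
        (if i = 0 then (if b = true then (1 : ℚ) else 0) * p (u.take N) * Z (b :: u.drop N) else 0) =
        (if b = true ∧ N ≤ u.length then p (u.take N) * Z (b :: u.drop N) else 0) := by
      rw [Finset.sum_ite_eq' ]
      by_cases hN : N ≤ u.length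
      · rw [if_pos (Finset.mem_range.2 (by omega))]
        cases b <;> simp [hN]
      · rw [if_neg (by rw [Finset.mem_range]; omega), if_neg (by tauto)]
    rw [e4]
    ring
  · rw [List.length_cons, show u.length + 1 + 1 - N = 0 by omega,
      show u.length + 1 - N = 0 by omega]
    rw [if_neg (by tauto), if_neg (by omega)]
    simp

/-- The coefficients of `D_ψ`. -/
theorem af_der_word {N : ℕ} {ψ : QX} (h : IsHom N ψ) (v : List Bool) : ∀ w : List Bool,
    af_dact N (coeff ψ) (coeff (word v)) w = coeff (der ψ (word v)) w := by
  induction v with
  | nil =>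
    intro w
    rw [word_nil, der_one, coeff_zero]
    unfold af_dact
    apply Finset.sum_eq_zero
    intro i hi
    rw [Finset.mem_range] at hi
    rw [← word_nil, coeff_word]
    by_cases h1 : w.take i ++ w.drop (i + N) = []
    · rw [List.append_eq_nil_iff, List.take_eq_nil_iff, List.drop_eq_nil_iff] at h1
      have h2 : w[i + N]? = none := List.getElem?_eq_none h1.2
      rw [h2]
      rcases h1.1 with h3 | h3
      · subst h3; simp
      · subst h3; simp
    · have h3 : (if [] = w.take i ++ w.drop (i + N) then (1 : ℚ) else 0) = 0 :=
        if_neg (fun h2 => h1 h2.symm)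
      rw [h3, mul_zero]
  | cons l v ih =>
    intro w
    cases w with
    | nil =>
      have h1 : coeff (der ψ (word (l :: v))) [] = 0 := by
        rw [word_cons, der_mul, coeff_add, coeff_iota_mul_nil, add_zero]
        cases l with
        | false => rw [der_false, zero_mul, coeff_zero]
        | true =>
          rw [der_true, sub_mul, coeff_sub, mul_assoc, coeff_iota_mul_nil, mul_assoc, coeff_mul]
          simp only [conv, coeff_iota_mul_nil]
          simp
      rw [h1]
      unfold af_dact
      apply Finset.sum_eq_zero
      intro i _
      simp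
    | cons b u =>
      rw [af_dact_cons]
      have hZ : ∀ t : List Bool, coeff (word (l :: v)) (b :: t) =
          if b = l then coeff (word v) t else 0 := by
        intro t
        rw [word_cons, coeff_iota_mul_cons]
      have hd : af_dact N (coeff ψ) (fun t => coeff (word (l :: v)) (b :: t)) u =
          if b = l then coeff (der ψ (word v)) u else 0 := by
        rw [← ih u]
        simp only [hZ]
        by_cases hb : b = l
        · simp [hb]
        · simp [hb, af_dact]
      rw [hd, hZ]
      cases l with
      | false =>
        have h0 : (b :: u)[N]? = some true → coeff (word (false :: v)) ((b :: u).drop N) = 0 := by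
          intro h1
          have h2 : ∃ t, (b :: u).drop N = true :: t := by
            rw [List.getElem?_eq_some_iff] at h1
            obtain ⟨h3, h4⟩ := h1
            exact ⟨(b :: u).drop (N + 1), by rw [List.drop_eq_getElem_cons h3, h4]⟩
          obtain ⟨t, ht⟩ := h2
          rw [ht, word_cons, coeff_iota_mul_cons]
          simp
        have h1 : (if N ≤ u.length + 1 ∧ (b :: u)[N]? = some true then
            - (coeff ψ ((b :: u).take N) * coeff (word (false :: v)) ((b :: u).drop N)) else 0) =
            0 := by
          split_ifs with h2
          · rw [h0 h2.2]; simp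
          · rfl
        rw [h1, word_cons, der_mul, der_false, zero_mul, zero_add, zero_add, coeff_iota_mul_cons]
        cases b <;> simp
      | true =>
        have h0 : (b :: u)[N]? ≠ some true → coeff (word (true :: v)) ((b :: u).drop N) = 0 := by
          intro h1
          rcases h2 : (b :: u).drop N with _ | ⟨c, t⟩
          · rw [word_cons, coeff_iota_mul_nil]
          · have h3 : (b :: u)[N]? = some c := by
              have := List.getElem?_drop (xs := b :: u) (i := N) (j := 0)
              rw [h2] at this
              simpa using this.symm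
            rw [word_cons, coeff_iota_mul_cons, if_neg]
            rintro rfl
            exact h1 h3
        have h1 : (if N ≤ u.length + 1 ∧ (b :: u)[N]? = some true then
            - (coeff ψ ((b :: u).take N) * coeff (word (true :: v)) ((b :: u).drop N)) else 0) =
            - coeff (ψ * word (true :: v)) (b :: u) := by
          rw [af_mul h]
          by_cases h2 : (b :: u)[N]? = some true
          · by_cases h3 : N ≤ u.length + 1
            · simp [h2, h3]
            · simp [h2, h3]
          · rw [h0 h2]
            simp
        rw [h1, word_cons, der_mul, der_true, sub_mul, coeff_add, coeff_sub,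
          mul_assoc (FreeAlgebra.ι ℚ true), mul_assoc ψ, coeff_iota_mul_cons, coeff_iota_mul_cons,
          af_mul h (word v) u]
        cases b
        · simp
        · simp
          ring

theorem af_der {N : ℕ} {ψ : QX} (h : IsHom N ψ) (W : QX) (w : List Bool) :
    af_dact N (coeff ψ) (coeff W) w = coeff (der ψ W) w := by
  let F : QX →ₗ[ℚ] ℚ :=
    { toFun := fun W => af_dact N (coeff ψ) (coeff W) w
      map_add' := by
        intro x y
        simp only [af_dact, coeff_add, mul_add, Finset.sum_add_distrib]
      map_smul' := by
        intro r x
        simp only [af_dact, coeff_smul, RingHom.id_apply, smul_eq_mul, Finset.mul_sum]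
        apply Finset.sum_congr rfl
        intro i _
        ring }
  have h1 : F = (coeffL w).comp (derL ψ) := by
    apply linear_ext
    intro v
    exact af_der_word h v w
  exact LinearMap.congr_fun h1 W

theorem p_af : AfS := by
  intro N ψ W w h
  rw [af_act, af_der h, sL, LinearMap.add_apply, LinearMap.mulLeft_apply, derL_apply, coeff_add,
    af_mul h W w]
  ring

end Pool.Agent.MP_a57f33_nt.GZ
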