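import Pool.Agent.Lib.MP_a57f33_nt.GZ.StmD

/-!
Piece [alte]: the action on alternating words of even length.
-/

namespace Pool.Agent.MP_a57f33_nt.GZ

open Pool.Agent.MP_a57f33_nt

theorem alte_get : ∀ (n m : ℕ) (c : Bool),
    (BZ.alt c n)[m]? = if m < n then some (if m % 2 = 0 then c else !c) else none
  | 0, m, c => by simp [BZ.alt]
  | n + 1, 0, c => by simp [BZ.alt]
  | n + 1, m + 1, c => by
    have ih := alte_get n m (!c)
    have e1 : (BZ.alt c (n + 1))[m + 1]? = (BZ.alt (!c) n)[m]? := by simp [BZ.alt]
    rw [e1, ih]
    by_cases h : m < n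
    · have h3 : m + 1 < n + 1 := by omega
      rw [if_pos h, if_pos h3]
      by_cases h2 : m % 2 = 0
      · have h4 : ¬ (m + 1) % 2 = 0 := by omega
        rw [if_pos h2, if_neg h4]
      · have h4 : (m + 1) % 2 = 0 := by omega
        rw [if_neg h2, if_pos h4, Bool.not_not]
    · have h3 : ¬ m + 1 < n + 1 := by omega
      rw [if_neg h, if_neg h3]

theorem alte_length : ∀ (n : ℕ) (c : Bool), (BZ.alt c n).length = n
  | 0, _ => rfl
  | n + 1, c => by
    have ih := alte_length n (!c)
    simp [BZ.alt, ih]

theorem p_alte : AlteS := by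
  intro k _ p Z r j
  unfold act
  refine Finset.sum_eq_zero fun i hi => ?_
  rw [Finset.mem_range, alte_length] at hi
  have h1 : (if i = 0 ∨ (BZ.alt false (2 * j))[i - 1]? = some true then (1 : k) else 0) -
      (if (BZ.alt false (2 * j))[i + (2 * r + 1)]? = some true then 1 else 0) = 0 := by
    rw [alte_get, alte_get]
    rcases Nat.mod_two_eq_zero_or_one i with h | h
    · rw [if_pos, if_pos, sub_self]
      · rw [if_pos (by omega), if_neg (by omega)]
        rfl
      · by_cases h0 : i = 0
        · exact Or.inl h0
        · right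
          rw [if_pos (by omega), if_neg (by omega)]
          rfl
    · rw [if_neg, if_neg, sub_self]
      · split_ifs
        · simp
        · omega
        · simp
      · rintro (h0 | h0)
        · omega
        · rw [if_pos (by omega), if_pos (by omega)] at h0
          simp at h0
  rw [h1, zero_mul, zero_mul]

end Pool.Agent.MP_a57f33_nt.GZ
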