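import Pool.Agent.Lib.MP_a57f33_nt.GZ.StmR

/-!
Project GZ, piece [cf] (helper57).
-/

namespace Pool.Agent.MP_a57f33_nt.GZ

open Pool.Agent.MP_a57f33_nt
open TensorProduct

lemma cf_X0 (q : QX) (u : List ℕ+) : coeff (q * X0) (toX u) = 0 := by
  by_cases hu : u = []
  · subst hu
    exact coeff_mul_iota_nil false q
  · obtain ⟨v, hv⟩ := toX_ends u hu
    rw [hv, coeff_mul_iota_snoc]
    simp

theorem p_cf : CfS := by
  intro N ψ p g hψ hs
  constructor
  · intro W u
    rw [hs W]
    have h1 : coeff (inY W * ψ) (toX u) = coeff (W * p) u := by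
      conv_lhs => rw [hψ]
      rw [Finset.mul_sum, ← coeffL_apply, map_sum, Finset.sum_range_succ']
      have h2 : ∀ i ∈ Finset.range N,
          coeffL (toX u) (inY W * (inY (Fk p (i + 1)) * X0 ^ (i + 1))) = 0 := by
        intro i _
        rw [coeffL_apply, pow_succ, ← mul_assoc, ← mul_assoc]
        exact cf_X0 _ u
      rw [Finset.sum_eq_zero h2, zero_add, pow_zero, mul_one, Fk_zero, ← map_mul, coeffL_apply,
        coeff_inY]
    rw [← coeffL_apply, map_add, coeffL_apply, coeffL_apply, h1, coeff_inY, ← coeffL_apply,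
      ← coeffL_apply, ← map_add, coeffL_apply]
  · intro W u
    have h1 : sL ψ (W * X0) = sL ψ W * X0 := by
      simp only [sL, LinearMap.add_apply, LinearMap.mulLeft_apply, derL_apply, der_mul, der_false,
        mul_zero, add_zero, add_mul, mul_assoc]
    rw [h1]
    exact cf_X0 _ u

end Pool.Agent.MP_a57f33_nt.GZ
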