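import Pool.Agent.Lib.MP_a57f33_nt.GZ.StmR

/-!
Piece `cod`: derivations whose values on the letters are compatible with the stuffle coproduct
are coderivations.
-/

namespace Pool.Agent.MP_a57f33_nt.GZ

open Pool.Agent.MP_a57f33_nt
open TensorProduct

/-- `A ⊗ 1 + 1 ⊗ A`. -/
noncomputable def cod_T (g : ℕ+ → QY) : QY ⊗[ℚ] QY →ₗ[ℚ] QY ⊗[ℚ] QY :=
  TensorProduct.map (dY g) LinearMap.id + TensorProduct.map LinearMap.id (dY g)

lemma cod_T_tmul (g : ℕ+ → QY) (a b : QY) :
    cod_T g (a ⊗ₜ[ℚ] b) = dY g a ⊗ₜ[ℚ] b + a ⊗ₜ[ℚ] dY g b := rfl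

lemma cod_T_mul (g : ℕ+ → QY) (s t : QY ⊗[ℚ] QY) :
    cod_T g (s * t) = cod_T g s * t + s * cod_T g t := by
  induction s using TensorProduct.induction_on with
  | zero => simp
  | tmul a b =>
    induction t using TensorProduct.induction_on with
    | zero => simp
    | tmul c d =>
      rw [Algebra.TensorProduct.tmul_mul_tmul, cod_T_tmul, cod_T_tmul, cod_T_tmul, dY_mul, dY_mul,
        add_mul, mul_add]
      simp only [Algebra.TensorProduct.tmul_mul_tmul, TensorProduct.add_tmul,
        TensorProduct.tmul_add]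
      abel
    | add x y hx hy =>
      rw [mul_add, map_add, hx, hy, map_add, mul_add, mul_add]
      abel
  | add x y hx hy =>
    rw [add_mul, map_add, hx, hy, map_add, add_mul, add_mul]
    abel

lemma cod_T_one (g : ℕ+ → QY) : cod_T g 1 = 0 := by
  rw [Algebra.TensorProduct.one_def, cod_T_tmul, dY_one]
  simp

theorem p_cod : CodS := by
  intro g hg W
  change Delta (dY g W) = cod_T g (Delta W)
  induction W using FreeAlgebra.induction with
  | grade0 r =>
    rw [Algebra.algebraMap_eq_smul_one, map_smul, map_smul, map_smul, map_smul, dY_one, map_one,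
      cod_T_one, map_zero]
  | grade1 n =>
    rw [dY_iota]
    exact hg n
  | mul a b ha hb =>
    rw [dY_mul, map_add, map_mul, map_mul, map_mul, ha, hb, cod_T_mul]
  | add a b ha hb =>
    rw [map_add, map_add, map_add, map_add, ha, hb]

end Pool.Agent.MP_a57f33_nt.GZ
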