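import Pool.Agent.Lib.MP_a57f33_nt.GZ.StmR

/-!
The relation between the coefficients of words with a letter added at one of the ends.
-/

namespace Pool.Agent.MP_a57f33_nt.GZ

open Pool.Agent.MP_a57f33_nt

theorem p_ends : EndsS := by
  intro ψ h w
  have hk := BZ.p_cyc ψ h
  have e0 := BZ.K_diff ψ (false :: w)
  have e1 := BZ.K_diff ψ (true :: w)
  have e2 := BZ.K_diff ψ (w ++ [false])
  have e3 := BZ.K_diff ψ (w ++ [true])
  have c0 : (false :: w).count true = w.count true := List.count_cons_of_ne (by decide)
  have c1 : (true :: w).count true = w.count true + 1 := List.count_cons_self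
  have c2 : (w ++ [false]).count true = w.count true := by simp
  have c3 : (w ++ [true]).count true = w.count true + 1 := by simp
  rw [BZ.coeff_sgn, c0] at e0
  rw [BZ.coeff_sgn, c1] at e1
  rw [BZ.coeff_sgn, c2] at e2
  rw [BZ.coeff_sgn, c3] at e3
  have k1 := hk false (true :: w)
  have k2 := hk false (false :: w)
  have k3 := hk true (true :: w)
  have k4 := hk true (false :: w)
  simp only [List.cons_append] at k1 k2 k3 k4
  rw [pow_succ] at e1 e3
  have hs : ((-1 : ℚ) ^ w.count true) ≠ 0 := pow_ne_zero _ (by norm_num)
  apply mul_left_cancel₀ hs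
  linarith

end Pool.Agent.MP_a57f33_nt.GZ
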