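import Pool.Agent.Lib.MP_a57f33_nt.GZ.StmR

/-!
Piece gen: the generating function computation.
-/

namespace Pool.Agent.MP_a57f33_nt.GZ

open Pool.Agent.MP_a57f33_nt
open TensorProduct

lemma gen_Dyy (m : ℕ) : Delta (yy m) = ∑ k ∈ Finset.range (m + 1), yy k ⊗ₜ[ℚ] yy (m - k) := by
  rw [← Finset.Nat.sum_antidiagonal_eq_sum_range_succ (fun i j => yy i ⊗ₜ[ℚ] yy j) m]
  cases m with
  | zero => simp [yy, Algebra.TensorProduct.one_def]
  | succ m => simp [yy, Delta]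

/-- second expansion, `yy j` on the left -/
lemma gen_D2 (m : ℤ) (M : ℕ) (h : m < M) :
    Delta (yz m) = ∑ j ∈ Finset.range M, yy j ⊗ₜ[ℚ] yz (m - j) := by
  by_cases hm : m < 0
  · rw [yz_neg m hm, map_zero]
    symm
    apply Finset.sum_eq_zero
    intro j _
    rw [yz_neg (m - j) (by omega), TensorProduct.tmul_zero]
  · obtain ⟨l, rfl⟩ := Int.eq_ofNat_of_zero_le (not_lt.1 hm)
    rw [yz_nat, gen_Dyy]
    have hsub : Finset.range (l + 1) ⊆ Finset.range M := by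
      intro x hx
      rw [Finset.mem_range] at hx ⊢
      omega
    rw [← Finset.sum_subset hsub]
    · apply Finset.sum_congr rfl
      intro j hj
      rw [Finset.mem_range] at hj
      have e : (l : ℤ) - (j : ℤ) = ((l - j : ℕ) : ℤ) := by omega
      rw [e, yz_nat]
    · intro j _ hj
      rw [Finset.mem_range] at hj
      rw [yz_neg _ (by omega), TensorProduct.tmul_zero]

/-- first expansion, `yy j` on the right -/
lemma gen_D1 (m : ℤ) (M : ℕ) (h : m < M) :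
    Delta (yz m) = ∑ j ∈ Finset.range M, yz (m - j) ⊗ₜ[ℚ] yy j := by
  by_cases hm : m < 0
  · rw [yz_neg m hm, map_zero]
    symm
    apply Finset.sum_eq_zero
    intro j _
    rw [yz_neg (m - j) (by omega), TensorProduct.zero_tmul]
  · obtain ⟨l, rfl⟩ := Int.eq_ofNat_of_zero_le (not_lt.1 hm)
    rw [yz_nat, gen_Dyy, ← Finset.sum_range_reflect]
    have hsub : Finset.range (l + 1) ⊆ Finset.range M := by
      intro x hx
      rw [Finset.mem_range] at hx ⊢
      omega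
    rw [← Finset.sum_subset hsub]
    · apply Finset.sum_congr rfl
      intro j hj
      rw [Finset.mem_range] at hj
      have e : (l : ℤ) - (j : ℤ) = ((l - j : ℕ) : ℤ) := by omega
      have e2 : l + 1 - 1 - j = l - j := by omega
      have e3 : l - (l - j) = j := by omega
      rw [e, yz_nat, e2, e3]
    · intro j _ hj
      rw [Finset.mem_range] at hj
      rw [yz_neg _ (by omega), TensorProduct.zero_tmul]

lemma gen_term (a b : QY) (ε : ℚ) (m : ℤ) (M : ℕ) (h : m < M) (ha : PrimY a) (hb : PrimY b) :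
    Delta (a * yz m - ε • (yz m * b)) =
      ∑ j ∈ Finset.range M, (a * yz (m - j) - ε • (yz (m - j) * b)) ⊗ₜ[ℚ] yy j +
      ∑ j ∈ Finset.range M, yy j ⊗ₜ[ℚ] (a * yz (m - j) - ε • (yz (m - j) * b)) := by
  have e1 : (a ⊗ₜ[ℚ] (1 : QY)) * Delta (yz m) =
      ∑ j ∈ Finset.range M, (a * yz (m - j)) ⊗ₜ[ℚ] yy j := by
    rw [gen_D1 m M h, Finset.mul_sum]
    apply Finset.sum_congr rfl
    intro j _
    rw [Algebra.TensorProduct.tmul_mul_tmul, one_mul]
  have e2 : ((1 : QY) ⊗ₜ[ℚ] a) * Delta (yz m) =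
      ∑ j ∈ Finset.range M, yy j ⊗ₜ[ℚ] (a * yz (m - j)) := by
    rw [gen_D2 m M h, Finset.mul_sum]
    apply Finset.sum_congr rfl
    intro j _
    rw [Algebra.TensorProduct.tmul_mul_tmul, one_mul]
  have e3 : Delta (yz m) * (b ⊗ₜ[ℚ] (1 : QY)) =
      ∑ j ∈ Finset.range M, (yz (m - j) * b) ⊗ₜ[ℚ] yy j := by
    rw [gen_D1 m M h, Finset.sum_mul]
    apply Finset.sum_congr rfl
    intro j _
    rw [Algebra.TensorProduct.tmul_mul_tmul, mul_one]
  have e4 : Delta (yz m) * ((1 : QY) ⊗ₜ[ℚ] b) =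
      ∑ j ∈ Finset.range M, yy j ⊗ₜ[ℚ] (yz (m - j) * b) := by
    rw [gen_D2 m M h, Finset.sum_mul]
    apply Finset.sum_congr rfl
    intro j _
    rw [Algebra.TensorProduct.tmul_mul_tmul, mul_one]
  have ha' : Delta a = a ⊗ₜ[ℚ] (1 : QY) + (1 : QY) ⊗ₜ[ℚ] a := ha
  have hb' : Delta b = b ⊗ₜ[ℚ] (1 : QY) + (1 : QY) ⊗ₜ[ℚ] b := hb
  rw [map_sub, map_smul, map_mul, map_mul, ha', hb', add_mul, mul_add, e1, e2, e3, e4]
  have f1 : ∑ j ∈ Finset.range M, (a * yz (m - j) - ε • (yz (m - j) * b)) ⊗ₜ[ℚ] yy j =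
      ∑ j ∈ Finset.range M, (a * yz (m - j)) ⊗ₜ[ℚ] yy j -
        ε • ∑ j ∈ Finset.range M, (yz (m - j) * b) ⊗ₜ[ℚ] yy j := by
    rw [Finset.smul_sum, ← Finset.sum_sub_distrib]
    apply Finset.sum_congr rfl
    intro j _
    rw [TensorProduct.sub_tmul, TensorProduct.smul_tmul']
  have f2 : ∑ j ∈ Finset.range M, yy j ⊗ₜ[ℚ] (a * yz (m - j) - ε • (yz (m - j) * b)) =
      ∑ j ∈ Finset.range M, yy j ⊗ₜ[ℚ] (a * yz (m - j)) -
        ε • ∑ j ∈ Finset.range M, yy j ⊗ₜ[ℚ] (yz (m - j) * b) := by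
    rw [Finset.smul_sum, ← Finset.sum_sub_distrib]
    apply Finset.sum_congr rfl
    intro j _
    rw [TensorProduct.tmul_sub, TensorProduct.tmul_smul]
  rw [f1, f2, smul_add]
  abel

lemma gen_gg (N : ℕ) (p : QY) (h : ∀ i : ℕ, PrimY (Fk p i) ∧ PrimY (revY (Fk p i)))
    (n : ℤ) (M : ℕ) (hM : n + N < M) :
    Delta (gg N p n) = ∑ j ∈ Finset.range M, gg N p (n - j) ⊗ₜ[ℚ] yy j +
      ∑ j ∈ Finset.range M, yy j ⊗ₜ[ℚ] gg N p (n - j) := by
  have e1 : ∀ j : ℕ, gg N p (n - j) ⊗ₜ[ℚ] yy j = ∑ i ∈ Finset.range (N + 1),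
      (Fk p i * yz (n + i - j) - ((-1 : ℚ) ^ (N + 1)) • (yz (n + i - j) * revY (Fk p i)))
        ⊗ₜ[ℚ] yy j := by
    intro j
    rw [gg, TensorProduct.sum_tmul]
    apply Finset.sum_congr rfl
    intro i _
    have : n - (j : ℤ) + (i : ℤ) = n + i - j := by ring
    rw [this]
  have e2 : ∀ j : ℕ, yy j ⊗ₜ[ℚ] gg N p (n - j) = ∑ i ∈ Finset.range (N + 1),
      yy j ⊗ₜ[ℚ] (Fk p i * yz (n + i - j) -
        ((-1 : ℚ) ^ (N + 1)) • (yz (n + i - j) * revY (Fk p i))) := by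
    intro j
    rw [gg, TensorProduct.tmul_sum]
    apply Finset.sum_congr rfl
    intro i _
    have : n - (j : ℤ) + (i : ℤ) = n + i - j := by ring
    rw [this]
  rw [Finset.sum_congr rfl (fun j _ => e1 j), Finset.sum_congr rfl (fun j _ => e2 j),
    Finset.sum_comm, Finset.sum_comm (s := Finset.range M), ← Finset.sum_add_distrib]
  rw [gg, map_sum]
  apply Finset.sum_congr rfl
  intro i hi
  rw [Finset.mem_range] at hi
  exact gen_term _ _ _ _ _ (by omega) (h i).1 (h i).2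

theorem p_gen : GenS := by
  intro N p h h0 n
  have hG : ∀ m : ℤ, dY (fun n : ℕ+ => gg N p ((n : ℕ) : ℤ)) (yz m) = gg N p m := by
    intro m
    rcases lt_trichotomy m 0 with hm | hm | hm
    · rw [yz_neg m hm, map_zero]
      obtain ⟨l, hl⟩ := Int.eq_ofNat_of_zero_le (show (0 : ℤ) ≤ -m by omega)
      have := h0 l
      rw [← hl, neg_neg] at this
      exact this.symm
    · subst hm
      rw [yz_zero, dY_one]
      have := h0 0
      simp only [Nat.cast_zero, neg_zero] at this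
      exact this.symm
    · obtain ⟨l, rfl⟩ := Int.eq_ofNat_of_zero_le hm.le
      have hl : 0 < l := by omega
      rw [yz_nat, dY_yy _ l hl]
      rfl
  have hι : FreeAlgebra.ι ℚ n = yz ((n : ℕ) : ℤ) := by
    rw [yz_nat]
    have hn : ((n : ℕ)) = ((n : ℕ) - 1) + 1 := by
      have := n.pos
      omega
    rw [hn, yy]
    have : ((n : ℕ) - 1).succPNat = n := by
      apply PNat.eq
      rw [Nat.succPNat_coe]
      have := n.pos
      omega
    rw [this]
  have hM : ((n : ℕ) : ℤ) + N < ((n : ℕ) + N + 1 : ℕ) := by push_cast; omega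
  have hM' : ((n : ℕ) : ℤ) < ((n : ℕ) + N + 1 : ℕ) := by push_cast; omega
  rw [gen_gg N p h _ _ hM, hι]
  congr 1
  · rw [gen_D1 _ _ hM', map_sum]
    apply Finset.sum_congr rfl
    intro j _
    rw [TensorProduct.map_tmul, hG, LinearMap.id_apply]
  · rw [gen_D2 _ _ hM', map_sum]
    apply Finset.sum_congr rfl
    intro j _
    rw [TensorProduct.map_tmul, hG, LinearMap.id_apply]

end Pool.Agent.MP_a57f33_nt.GZ
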