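import Pool.Agent.Lib.MP_a57f33_nt.GZ.StmR

/-!
Piece [ggk] of part R.
-/

namespace Pool.Agent.MP_a57f33_nt.GZ

open Pool.Agent.MP_a57f33_nt
open TensorProduct

private lemma ggk_add (N : ℕ) (p q : QY) (n : ℤ) : gg N (p + q) n = gg N p n + gg N q n := by
  unfold gg
  rw [← Finset.sum_add_distrib]
  refine Finset.sum_congr rfl fun i _ => ?_
  rw [Fk_add, map_add, add_mul, mul_add, smul_add]
  abel

private lemma ggk_rev (N : ℕ) : revY ((FreeAlgebra.ι ℚ (1 : ℕ+)) ^ N) =
    (FreeAlgebra.ι ℚ (1 : ℕ+)) ^ N := by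
  induction N with
  | zero => rw [pow_zero, revY_one]
  | succ N ih => rw [pow_succ, revY_mul, ih, revY_iota, ← pow_succ', pow_succ]

theorem p_ggk : GgkS := by
  intro N p c n hc
  rw [ggk_add]
  congr 1
  unfold gg
  rw [Finset.sum_range_succ', Finset.sum_eq_zero, zero_add]
  · rw [Fk_zero, map_smul, ggk_rev, smul_mul_assoc, mul_smul_comm, smul_smul, hc, smul_sub]
    simp
  · intro i _
    rw [Fk_smul, Fk_of_pd_zero (pd_y1_pow N), smul_zero, map_zero, zero_mul, mul_zero, smul_zero,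
      sub_zero]

end Pool.Agent.MP_a57f33_nt.GZ
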