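import Pool.Agent.Lib.MP_a57f33_nt.GZ.StmR

/-!
Piece [h0].
-/

namespace Pool.Agent.MP_a57f33_nt.GZ

open Pool.Agent.MP_a57f33_nt
open TensorProduct

lemma h0_right (F : QY) (i : ℕ) (w : List Bool) :
    coeff (inY F * X0 ^ i) (w ++ [true]) + coeff (inY F * X0 ^ i) (w ++ [false]) =
      coeff (inY (F * yy i)) (w ++ [true]) := by
  cases i with
  | zero =>
    have h : yy 0 = 1 := rfl
    rw [pow_zero, mul_one, coeff_inY_false, add_zero, h, mul_one]
  | succ j =>
    rw [pow_succ, ← mul_assoc, coeff_mul_iota_snoc, coeff_mul_iota_snoc, map_mul, inY_yy,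
      ← mul_assoc, coeff_mul_iota_snoc]
    simp

lemma h0_left (G : QY) (i : ℕ) (w : List Bool) :
    coeff (X0 ^ i * X1 * inY G) (true :: (w ++ [true])) +
      coeff (X0 ^ i * X1 * inY G) (false :: (w ++ [true])) =
      coeff (inY (yy i * G)) (w ++ [true]) := by
  cases i with
  | zero =>
    have h : yy 0 = 1 := rfl
    rw [pow_zero, one_mul, coeff_iota_mul_cons, coeff_iota_mul_cons, h, one_mul]
    simp
  | succ j =>
    rw [pow_succ', mul_assoc, mul_assoc, coeff_iota_mul_cons, coeff_iota_mul_cons, map_mul, inY_yy,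
      mul_assoc]
    simp

lemma h0_coeff_sum {X : Type} (s : Finset ℕ) (f : ℕ → FreeAlgebra ℚ X) (w : List X) :
    coeff (∑ i ∈ s, f i) w = ∑ i ∈ s, coeff (f i) w := by
  simp only [← coeffL_apply, map_sum]

lemma h0_main (N : ℕ) (ψ : QX) (p : QY)
    (hE : ∀ w : List Bool, coeff ψ (false :: w) + coeff ψ (true :: w) =
      coeff ψ (w ++ [false]) + coeff ψ (w ++ [true]))
    (h1 : ψ = ∑ i ∈ Finset.range (N + 1), inY (Fk p i) * X0 ^ i)
    (h2 : ψ * X1 = ∑ i ∈ Finset.range (N + 1),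
      X0 ^ i * X1 * inY (((-1 : ℚ) ^ (N + 1)) • revY (Fk p i))) (w : List Bool) :
    coeff (inY (gg N p 0)) (w ++ [true]) = 0 := by
  have ha : ∑ i ∈ Finset.range (N + 1), coeff (inY (Fk p i * yy i)) (w ++ [true]) =
      coeff ψ (w ++ [true]) + coeff ψ (w ++ [false]) := by
    conv_rhs => rw [h1, h0_coeff_sum, h0_coeff_sum, ← Finset.sum_add_distrib]
    exact Finset.sum_congr rfl fun i _ => (h0_right _ _ _).symm
  have hb : ∑ i ∈ Finset.range (N + 1),
      coeff (inY (yy i * (((-1 : ℚ) ^ (N + 1)) • revY (Fk p i)))) (w ++ [true]) =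
      coeff ψ (true :: w) + coeff ψ (false :: w) := by
    have e1 : coeff ψ (true :: w) = coeff (ψ * X1) (true :: (w ++ [true])) := by
      rw [← List.cons_append, coeff_mul_iota_snoc]; simp
    have e2 : coeff ψ (false :: w) = coeff (ψ * X1) (false :: (w ++ [true])) := by
      rw [← List.cons_append, coeff_mul_iota_snoc]; simp
    rw [e1, e2, h2, h0_coeff_sum, h0_coeff_sum, ← Finset.sum_add_distrib]
    exact Finset.sum_congr rfl fun i _ => (h0_left _ _ _).symm
  have hg : gg N p 0 = ∑ i ∈ Finset.range (N + 1), Fk p i * yy i -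
      ∑ i ∈ Finset.range (N + 1), yy i * (((-1 : ℚ) ^ (N + 1)) • revY (Fk p i)) := by
    rw [gg, ← Finset.sum_sub_distrib]
    refine Finset.sum_congr rfl fun i _ => ?_
    rw [zero_add, yz_nat, mul_smul_comm]
  rw [hg, map_sub, map_sum, map_sum, coeff_sub, h0_coeff_sum, h0_coeff_sum, ha, hb]
  have := hE w
  linarith

theorem p_h0 : H0S := by
  intro N ψ p hE h0 h1 h2
  apply ext_coeff
  intro u
  rw [coeff_zero]
  by_cases hu : u = []
  · subst hu
    have hp : coeff p [] = 0 := by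
      have e : coeff ψ [] = ∑ i ∈ Finset.range (N + 1), coeff (inY (Fk p i) * X0 ^ i) [] := by
        conv_lhs => rw [h1, h0_coeff_sum]
      rw [Finset.sum_range_succ', pow_zero, mul_one, Fk_zero] at e
      have e2 : ∀ i ∈ Finset.range N, coeff (inY (Fk p (i + 1)) * X0 ^ (i + 1)) [] = 0 := by
        intro i _
        rw [pow_succ, ← mul_assoc, coeff_mul_iota_nil]
      rw [Finset.sum_eq_zero e2, zero_add, h0] at e
      have e3 := coeff_inY p []
      rw [toX] at e3
      rw [← e3, ← e]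
    have hg : gg N p 0 = ∑ i ∈ Finset.range (N + 1),
        (Fk p i * yy i - yy i * (((-1 : ℚ) ^ (N + 1)) • revY (Fk p i))) := by
      rw [gg]
      refine Finset.sum_congr rfl fun i _ => ?_
      rw [zero_add, yz_nat, mul_smul_comm]
    have hz : ∀ i ∈ Finset.range N, coeff (Fk p (i + 1) * yy (i + 1) -
        yy (i + 1) * (((-1 : ℚ) ^ (N + 1)) • revY (Fk p (i + 1)))) [] = 0 := by
      intro i _
      have e3 : coeff (Fk p (i + 1) * yy (i + 1)) [] = 0 := by
        rw [← coeff_inY, toX, map_mul, inY_yy, ← mul_assoc, coeff_mul_iota_nil]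
      have e4 : coeff (yy (i + 1) * (((-1 : ℚ) ^ (N + 1)) • revY (Fk p (i + 1)))) [] = 0 := by
        rw [yy, coeff_iota_mul_nil]
      rw [coeff_sub, e3, e4, sub_zero]
    have hy : yy 0 = 1 := rfl
    rw [hg, h0_coeff_sum, Finset.sum_range_succ', Finset.sum_eq_zero hz, zero_add, hy, mul_one,
      one_mul, Fk_zero, coeff_sub, coeff_smul, coeff_revY, List.reverse_nil, hp]
    simp
  · obtain ⟨w, hw⟩ := toX_ends u hu
    rw [← coeff_inY, hw]
    exact h0_main N ψ p hE h1 h2 w

end Pool.Agent.MP_a57f33_nt.GZ
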