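import Pool.Agent.Lib.MP_a57f33_nt.GZ.StmR

/-!
Piece hj: the functionals `gg N p (-j)` vanish for all `j`.
-/

namespace Pool.Agent.MP_a57f33_nt.GZ

open Pool.Agent.MP_a57f33_nt

/-- the `i`-th term of `gg N p n` -/
noncomputable def hj_D (N : ℕ) (p : QY) (n : ℤ) (i : ℕ) : QY :=
  Fk p i * yz (n + i) - ((-1 : ℚ) ^ (N + 1)) • (yz (n + i) * revY (Fk p i))

lemma hj_pd_yz (m : ℤ) : pd (yz m) = ((m : ℚ) - 1) • yz (m - 1) := by
  by_cases h : m = 0
  · subst h
    rw [pd_yz_zero, yz_neg (0 - 1) (by norm_num), smul_zero]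
  · exact pd_yz m h

lemma hj_pd_rev (p : QY) (i : ℕ) :
    pd (revY (Fk p i)) = (-((i : ℚ) + 1)) • revY (Fk p (i + 1)) := by
  rw [pd_revY, pd_Fk, map_smul]

lemma hj_term (N : ℕ) (p : QY) (n : ℤ) (i : ℕ) :
    pd (hj_D N p n i) = (-((i : ℚ) + 1)) • hj_D N p (n - 1) (i + 1) +
      ((n : ℚ) + i - 1) • hj_D N p (n - 1) i := by
  unfold hj_D
  have e1 : n - 1 + ((i + 1 : ℕ) : ℤ) = n + i := by push_cast; ring
  have e2 : n - 1 + (i : ℤ) = n + i - 1 := by ring
  rw [e1, e2, map_sub, map_smul, pd_mul, pd_mul, pd_Fk, hj_pd_rev, hj_pd_yz]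
  have e3 : (((n + (i : ℤ) : ℤ) : ℚ) - 1) = (n : ℚ) + i - 1 := by push_cast; ring
  rw [e3]
  simp only [smul_mul_assoc, mul_smul_comm]
  module

lemma hj_gg (N : ℕ) (p : QY) (n : ℤ) :
    gg N p n = ∑ i ∈ Finset.range (N + 1), hj_D N p n i := rfl

lemma hj_pd (N : ℕ) (p : QY) (h : ∀ i, N < i → Fk p i = 0) (n : ℤ) :
    pd (gg N p n) = ((n : ℚ) - 1) • gg N p (n - 1) := by
  have h0 : hj_D N p (n - 1) (N + 1) = 0 := by
    unfold hj_D
    rw [h (N + 1) (Nat.lt_succ_self N), map_zero, zero_mul, mul_zero, smul_zero, sub_zero]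
  have h1 : ∑ i ∈ Finset.range (N + 1), (-((i : ℚ) + 1)) • hj_D N p (n - 1) (i + 1) =
      ∑ i ∈ Finset.range (N + 1), (-(i : ℚ)) • hj_D N p (n - 1) i := by
    have a := Finset.sum_range_succ (fun i : ℕ => (-(i : ℚ)) • hj_D N p (n - 1) i) (N + 1)
    have b := Finset.sum_range_succ' (fun i : ℕ => (-(i : ℚ)) • hj_D N p (n - 1) i) (N + 1)
    rw [h0, smul_zero, add_zero] at a
    rw [a] at b
    rw [b]
    simp
  rw [hj_gg, hj_gg, map_sum, Finset.sum_congr rfl (fun i _ => hj_term N p n i),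
    Finset.sum_add_distrib, h1, ← Finset.sum_add_distrib, Finset.smul_sum]
  refine Finset.sum_congr rfl fun i _ => ?_
  rw [← add_smul]
  congr 1
  ring

theorem p_hj : HjS := by
  intro N p h h0 j
  induction j with
  | zero => simpa using h0
  | succ j ih =>
    have h1 := hj_pd N p h (-(j : ℤ))
    rw [ih, map_zero] at h1
    have h2 : ((-(j : ℤ) : ℤ) : ℚ) - 1 ≠ 0 := by
      push_cast
      have : (0 : ℚ) ≤ j := Nat.cast_nonneg j
      intro h3
      linarith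
    have h3 : gg N p (-(j : ℤ) - 1) = 0 := by
      rcases smul_eq_zero.1 h1.symm with h | h
      · exact absurd h h2
      · exact h
    rw [← h3]
    congr 1
    push_cast
    ring

end Pool.Agent.MP_a57f33_nt.GZ
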