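import Pool.Agent.Lib.MP_a57f33_nt.GZ.StmD

/-!
# Piece `kv`: from `dm₀` to `dm₀ ⊗ k`
-/

namespace Pool.Agent.MP_a57f33_nt.GZ

open Pool.Agent.MP_a57f33_nt

lemma kv_ins (i : ℕ) (f : List Bool → ℚ) :
    ins false (List.replicate i false) f = ((i : ℚ) + 1) * f (List.replicate (i + 1) false) := by
  induction i generalizing f with
  | zero => simp [ins]
  | succ i ih =>
    rw [show List.replicate (i + 1) false = false :: List.replicate i false from
      List.replicate_succ]
    rw [ins, ih]
    have e1 : false :: false :: List.replicate i false = List.replicate (i + 1 + 1) false := by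
      rw [List.replicate_succ, List.replicate_succ]
    have e2 : false :: List.replicate (i + 1) false = List.replicate (i + 1 + 1) false := by
      rw [← List.replicate_succ]
    rw [e1, e2]
    push_cast
    ring

lemma kv_x0 {ψ : QX} (h : ψ ∈ dm0) (N : ℕ) : coeff ψ (List.replicate N false) = 0 := by
  match N with
  | 0 => exact (lie_ins h.1).1
  | 1 => exact h.2.1
  | n + 2 =>
    have h1 := (lie_ins h.1).2 false (List.replicate (n + 1) false) (by simp)
    rw [kv_ins] at h1
    rcases mul_eq_zero.1 h1 with h2 | h2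
    · exfalso
      have : (0 : ℚ) < ((n + 1 : ℕ) : ℚ) + 1 := by positivity
      exact this.ne' h2
    · exact h2

lemma kv_zero {k : Type} [CommRing k] [Algebra ℚ k] {x : k} (h : ∀ l : k →ₗ[ℚ] ℚ, l x = 0) :
    x = 0 :=
  (Module.forall_dual_apply_eq_zero_iff ℚ x).1 h

lemma kv_eq {k : Type} [CommRing k] [Algebra ℚ k] {x y : k} (h : ∀ l : k →ₗ[ℚ] ℚ, l x = l y) :
    x = y :=
  sub_eq_zero.1 (kv_zero fun l => by rw [map_sub, h l, sub_self])

theorem p_kv : KvS := by
  intro hP k _ _ N p hp
  refine ⟨?_, ?_, ?_, ?_, ?_⟩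
  · intro w hw
    refine kv_zero fun l => ?_
    obtain ⟨ψ, hψ, hN, hc⟩ := hp l
    rw [← hc w]
    exact hN w hw
  · intro w
    refine kv_eq fun l => ?_
    obtain ⟨ψ, hψ, hN, hc⟩ := hp l
    have h1 : l ((-1) ^ (w.length + 1) * p w) = (-1) ^ (w.length + 1) * l (p w) := by
      rcases neg_one_pow_eq_or k (w.length + 1) with h | h
      · rcases Nat.even_or_odd (w.length + 1) with h' | h'
        · rw [h'.neg_one_pow, h'.neg_one_pow, one_mul, one_mul]
        · rw [h'.neg_one_pow, h'.neg_one_pow, neg_one_mul, neg_one_mul, map_neg]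
      · rcases Nat.even_or_odd (w.length + 1) with h' | h'
        · rw [h'.neg_one_pow, h'.neg_one_pow, one_mul, one_mul]
        · rw [h'.neg_one_pow, h'.neg_one_pow, neg_one_mul, neg_one_mul, map_neg]
    rw [h1, ← hc, ← hc]
    exact lie_reverse hψ.1 w
  · refine kv_zero fun l => ?_
    obtain ⟨ψ, hψ, hN, hc⟩ := hp l
    rw [← hc]
    exact kv_x0 hψ N
  · intro a b
    refine kv_eq fun l => ?_
    obtain ⟨ψ, hψ, hN, hc⟩ := hp l
    rw [map_smul, ← hc, ← hc, smul_eq_mul]
    exact BZ.brown_zagier hψ a b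
  · intro r hr
    refine kv_eq fun l => ?_
    obtain ⟨ψ, hψ, hN, hc⟩ := hp l
    rw [map_smul, ← hc, ← hc, smul_eq_mul]
    exact hP ψ hψ r hr

end Pool.Agent.MP_a57f33_nt.GZ
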