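import Pool.Agent.Lib.MP_a57f33_nt.GZ.StmR

set_option autoImplicit false

namespace Pool.Agent.MP_a57f33_nt.GZ

open Pool.Agent.MP_a57f33_nt
open TensorProduct

theorem mul_left (p : QY) (T : QY ⊗[ℚ] QY) :
    TensorProduct.map (LinearMap.mulRight ℚ p) LinearMap.id T = T * (p ⊗ₜ[ℚ] 1) := by
  induction T using TensorProduct.induction_on with
  | zero => simp
  | tmul a b => simp [TensorProduct.map_tmul, Algebra.TensorProduct.tmul_mul_tmul]
  | add x y hx hy => rw [map_add, hx, hy, add_mul]

theorem mul_right (p : QY) (T : QY ⊗[ℚ] QY) :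
    TensorProduct.map LinearMap.id (LinearMap.mulRight ℚ p) T = T * (1 ⊗ₜ[ℚ] p) := by
  induction T using TensorProduct.induction_on with
  | zero => simp
  | tmul a b => simp [TensorProduct.map_tmul, Algebra.TensorProduct.tmul_mul_tmul]
  | add x y hx hy => rw [map_add, hx, hy, add_mul]

theorem p_mul : MulS := by
  intro p A hp hA W
  rw [LinearMap.add_apply, LinearMap.mulRight_apply, map_add, map_mul, hp, hA W,
    TensorProduct.map_add_left, TensorProduct.map_add_right, LinearMap.add_apply,
    LinearMap.add_apply, mul_left, mul_right, mul_add]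
  abel

end Pool.Agent.MP_a57f33_nt.GZ
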