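import Pool.Agent.Lib.MP_a57f33_nt.GZ.StmR

/-!
Piece [nil]: `Fk p i = 0` for `i > N`, if `p` is of weight `N`.
-/

namespace Pool.Agent.MP_a57f33_nt.GZ

open Pool.Agent.MP_a57f33_nt

lemma nil_yy (k : ℕ+) : yy (k : ℕ) = FreeAlgebra.ι ℚ k := by
  obtain ⟨n, rfl⟩ : ∃ n : ℕ, k = n.succPNat := ⟨k.natPred, (PNat.succPNat_natPred k).symm⟩
  rfl

lemma nil_up_add : ∀ (u : List ℕ+) (f g : List ℕ+ → ℚ),
    up u (fun v => f v + g v) = up u f + up u g
  | [], f, g => by simp [up]
  | n :: u, f, g => by
    have ih := nil_up_add u (fun v => f (n :: v)) (fun v => g (n :: v))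
    simp only [up]
    rw [ih]
    ring

lemma nil_up_smul : ∀ (u : List ℕ+) (r : ℚ) (f : List ℕ+ → ℚ),
    up u (fun v => r * f v) = r * up u f
  | [], r, f => by simp [up]
  | n :: u, r, f => by
    have ih := nil_up_smul u r (fun v => f (n :: v))
    simp only [up]
    rw [ih]
    ring

/-- the values of `f` at the words of weight `wt u + 1` are enough -/
lemma nil_up_zero : ∀ (u : List ℕ+) (f : List ℕ+ → ℚ),
    (∀ v : List ℕ+, (v.map fun n : ℕ+ => (n : ℕ)).sum = (u.map fun n : ℕ+ => (n : ℕ)).sum + 1 →
      f v = 0) → up u f = 0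
  | [], f, _ => rfl
  | n :: u, f, h => by
    have ih := nil_up_zero u (fun v => f (n :: v)) (by
      intro v hv
      refine h (n :: v) ?_
      simp only [List.map_cons, List.sum_cons]
      omega)
    have h1 : f ((n + 1) :: u) = 0 := by
      refine h _ ?_
      simp only [List.map_cons, List.sum_cons, PNat.add_coe, PNat.one_coe]
      omega
    simp only [up]
    rw [ih, h1, mul_zero, zero_add]

lemma nil_word : ∀ (w u : List ℕ+), coeff (pd (word w)) u = up u (coeff (word w))
  | [], u => by
    rw [word_nil, pd_one, coeff_zero]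
    symm
    refine nil_up_zero u _ fun v hv => ?_
    rw [← word_nil, coeff_word, if_neg]
    rintro rfl
    simp at hv
  | m :: w, u => by
    have ih := nil_word w
    have h1 : pd (FreeAlgebra.ι ℚ m) = (((m : ℕ) : ℚ) - 1) • yy ((m : ℕ) - 1) := dY_iota _ m
    rw [word_cons, pd_mul, h1, coeff_add, smul_mul_assoc, coeff_smul]
    rcases u with _ | ⟨n, u⟩
    · rw [coeff_iota_mul_nil, add_zero]
      change _ = (0 : ℚ)
      by_cases hm : m = 1
      · subst hm
        simp
      · obtain ⟨k, rfl⟩ : ∃ k : ℕ+, m = k + 1 := by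
          obtain ⟨k, hk⟩ := PNat.exists_eq_succ_of_ne_one hm
          exact ⟨k, hk⟩
        have h2 : ((k + 1 : ℕ+) : ℕ) - 1 = (k : ℕ) := by
          rw [PNat.add_coe, PNat.one_coe, Nat.add_sub_cancel]
        rw [h2, nil_yy, coeff_iota_mul_nil, mul_zero]
    · have h3 : up (n :: u) (coeff (FreeAlgebra.ι ℚ m * word w)) =
          ((n : ℕ) : ℚ) * coeff (FreeAlgebra.ι ℚ m * word w) ((n + 1) :: u) +
            up u (fun v => coeff (FreeAlgebra.ι ℚ m * word w) (n :: v)) := rfl
      have h4 : (fun v => coeff (FreeAlgebra.ι ℚ m * word w) (n :: v)) =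
          fun v => (if n = m then (1 : ℚ) else 0) * coeff (word w) v := by
        funext v
        rw [coeff_iota_mul_cons]
        split_ifs <;> simp
      rw [h3, h4, nil_up_smul, coeff_iota_mul_cons, coeff_iota_mul_cons, ih u]
      have h5 : (if n = m then up u (coeff (word w)) else 0) =
          (if n = m then (1 : ℚ) else 0) * up u (coeff (word w)) := by
        split_ifs <;> simp
      rw [h5]
      congr 1
      by_cases hm : m = 1
      · subst hm
        have h6 : n + 1 ≠ 1 := by
          intro h
          have := congrArg (fun x : ℕ+ => (x : ℕ)) h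
          simp only [PNat.add_coe, PNat.one_coe] at this
          have h7 := n.pos
          omega
        rw [if_neg h6]
        simp
      · obtain ⟨k, rfl⟩ : ∃ k : ℕ+, m = k + 1 := by
          obtain ⟨k, hk⟩ := PNat.exists_eq_succ_of_ne_one hm
          exact ⟨k, hk⟩
        have h2 : ((k + 1 : ℕ+) : ℕ) - 1 = (k : ℕ) := by
          rw [PNat.add_coe, PNat.one_coe, Nat.add_sub_cancel]
        rw [h2, nil_yy, coeff_iota_mul_cons]
        by_cases hn : n = k
        · subst hn
          rw [if_pos rfl, if_pos rfl]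
          push_cast
          ring
        · rw [if_neg hn, if_neg (fun h => hn (add_right_cancel h))]
          simp

lemma nil_up (W : QY) (u : List ℕ+) : coeff (pd W) u = up u (coeff W) := by
  let F : QY →ₗ[ℚ] ℚ :=
    { toFun := fun W => up u (coeff W)
      map_add' := by
        intro x y
        rw [← nil_up_add]
        refine congrArg (up u) (funext fun v => ?_)
        rw [coeff_add]
      map_smul' := by
        intro r x
        rw [RingHom.id_apply, smul_eq_mul, ← nil_up_smul]
        refine congrArg (up u) (funext fun v => ?_)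
        rw [coeff_smul] }
  have h : (coeffL u).comp pd = F := by
    apply linear_ext
    intro w
    exact nil_word w u
  exact LinearMap.congr_fun h W

lemma nil_Fk (N : ℕ) (p : QY) (hp : IsHomY N p) : ∀ (i : ℕ) (u : List ℕ+),
    (u.map fun n : ℕ+ => (n : ℕ)).sum + i ≠ N → coeff (Fk p i) u = 0 := by
  intro i
  induction i with
  | zero => exact fun u hu => hp u (by simpa using hu)
  | succ i ih =>
    intro u hu
    rw [Fk_succ, coeff_smul, nil_up, nil_up_zero u _ (fun v hv => ih v (by omega)), mul_zero]

theorem p_nil : NilS := by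
  intro N p hp i hi
  apply ext_coeff
  intro u
  rw [nil_Fk N p hp i u (by omega), coeff_zero]

end Pool.Agent.MP_a57f33_nt.GZ
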