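import Pool.Agent.Lib.MP_a57f33_nt.GZ.StmD

/-!
The coefficient of an alternating word of odd length.
-/

namespace Pool.Agent.MP_a57f33_nt.GZ

open Pool.Agent.MP_a57f33_nt

private lemma p0_alt (r : ℕ) :
    BZ.alt false (2 * r + 1) = BZ.alt false (2 * r) ++ [false] := by
  rw [BZ.xl_alt_add_even]
  rfl

theorem p_p0 : P0S := by
  intro ψ h r hr
  have hk := BZ.p_cyc ψ h
  have H := BZ.chainH_K h r
  have h2 := BZ.K_wzz BZ.p_x2 hk hr H 0 (by omega)
  have h3 := BZ.K_diff ψ (BZ.alt false (2 * r + 1))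
  have e1 : true :: BZ.alt false (2 * r + 1) = BZ.alt true (2 * r + 2) := rfl
  have e2 : BZ.K ψ (false :: BZ.alt false (2 * r + 1)) = BZ.K ψ (BZ.wzz r 0) := by
    rw [p0_alt, ← List.cons_append, hk false (false :: BZ.alt false (2 * r))]
    rfl
  rw [e1, e2, h2, BZ.coeff_sgn, BZ.coeff_sgn] at h3
  have c1 : (BZ.alt false (2 * r + 1)).count true = r := by
    rw [p0_alt, ← BZ.bl_eq, List.count_append, BZ.count_bl]
    simp
  have c2 : (List.replicate (2 * r) false ++ [true]).count true = 1 := by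
    rw [List.count_append, List.count_replicate]
    simp
  rw [c1, c2, Nat.mul_zero, Nat.choose_zero_right] at h3
  have s1 : ((-1 : ℚ)) ^ r * (-1) ^ r = 1 := by rw [← mul_pow]; norm_num
  have h4 : coeff ψ (BZ.alt false (2 * r + 1)) =
      (-1 : ℚ) ^ r * ((-1 : ℚ) ^ r * coeff ψ (BZ.alt false (2 * r + 1))) := by
    rw [← mul_assoc, s1, one_mul]
  rw [h4, h3]
  push_cast
  ring

end Pool.Agent.MP_a57f33_nt.GZ
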