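import Pool.Agent.Lib.MP_a57f33_nt.GZ.StmR

/-!
# GZ, piece prm: the elements `F_k` and their reversals are primitive
-/

namespace Pool.Agent.MP_a57f33_nt.GZ

open Pool.Agent.MP_a57f33_nt
open TensorProduct

private lemma prm_left_mul (s t : QY ⊗[ℚ] QY) :
    TensorProduct.map pd LinearMap.id (s * t) =
      TensorProduct.map pd LinearMap.id s * t + s * TensorProduct.map pd LinearMap.id t := by
  induction s using TensorProduct.induction_on with
  | zero => simp
  | add a b ha hb => rw [add_mul, map_add, map_add, ha, hb, add_mul, add_mul]; abel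
  | tmul a b =>
    induction t using TensorProduct.induction_on with
    | zero => simp
    | add c d hc hd => rw [mul_add, map_add, map_add, hc, hd, mul_add, mul_add]; abel
    | tmul c d =>
      simp only [Algebra.TensorProduct.tmul_mul_tmul, TensorProduct.map_tmul, LinearMap.id_apply,
        pd_mul, TensorProduct.add_tmul]

private lemma prm_right_mul (s t : QY ⊗[ℚ] QY) :
    TensorProduct.map LinearMap.id pd (s * t) =
      TensorProduct.map LinearMap.id pd s * t + s * TensorProduct.map LinearMap.id pd t := by
  induction s using TensorProduct.induction_on with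
  | zero => simp
  | add a b ha hb => rw [add_mul, map_add, map_add, ha, hb, add_mul, add_mul]; abel
  | tmul a b =>
    induction t using TensorProduct.induction_on with
    | zero => simp
    | add c d hc hd => rw [mul_add, map_add, map_add, hc, hd, mul_add, mul_add]; abel
    | tmul c d =>
      simp only [Algebra.TensorProduct.tmul_mul_tmul, TensorProduct.map_tmul, LinearMap.id_apply,
        pd_mul, TensorProduct.tmul_add]

private lemma prm_rev_mul (s t : QY ⊗[ℚ] QY) :
    TensorProduct.map revY revY (s * t) =
      TensorProduct.map revY revY t * TensorProduct.map revY revY s := by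
  induction s using TensorProduct.induction_on with
  | zero => simp
  | add a b ha hb => rw [add_mul, map_add, map_add, ha, hb, mul_add]
  | tmul a b =>
    induction t using TensorProduct.induction_on with
    | zero => simp
    | add c d hc hd => rw [mul_add, map_add, map_add, hc, hd, add_mul]
    | tmul c d =>
      simp only [Algebra.TensorProduct.tmul_mul_tmul, TensorProduct.map_tmul, revY_mul]

private lemma prm_Delta_yy (n : ℕ) : Delta (yy n) =
    ∑ ij ∈ Finset.HasAntidiagonal.antidiagonal n, yy ij.1 ⊗ₜ[ℚ] yy ij.2 := by
  cases n with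
  | zero =>
    rw [Finset.Nat.antidiagonal_zero, Finset.sum_singleton]
    change Delta 1 = (1 : QY) ⊗ₜ[ℚ] (1 : QY)
    rw [map_one]
    rfl
  | succ n =>
    change Delta (FreeAlgebra.ι ℚ n.succPNat) = _
    rw [Delta, FreeAlgebra.lift_ι_apply]
    rfl

private lemma prm_coder : CoderY pd := by
  intro W
  induction W using FreeAlgebra.induction with
  | grade0 r =>
    rw [Algebra.algebraMap_eq_smul_one, map_smul, pd_one, smul_zero, map_zero, map_smul, map_one,
      map_smul, map_smul, Algebra.TensorProduct.one_def, TensorProduct.map_tmul,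
      TensorProduct.map_tmul, pd_one, TensorProduct.zero_tmul, TensorProduct.tmul_zero, smul_zero,
      add_zero]
  | grade1 n =>
    obtain ⟨m, rfl⟩ : ∃ m : ℕ, n = m.succPNat := ⟨n.natPred, n.succPNat_natPred.symm⟩
    change Delta (pd (yy (m + 1))) = TensorProduct.map pd LinearMap.id (Delta (yy (m + 1))) +
      TensorProduct.map LinearMap.id pd (Delta (yy (m + 1)))
    rw [pd_yy_succ, map_smul, prm_Delta_yy, prm_Delta_yy, map_sum, map_sum,
      Finset.Nat.sum_antidiagonal_succ, Finset.Nat.sum_antidiagonal_succ']
    simp only [TensorProduct.map_tmul, LinearMap.id_apply, pd_yy_zero, TensorProduct.zero_tmul,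
      TensorProduct.tmul_zero, pd_yy_succ, zero_add]
    rw [Finset.smul_sum, ← Finset.sum_add_distrib]
    refine Finset.sum_congr rfl fun ij hij => ?_
    rw [Finset.HasAntidiagonal.mem_antidiagonal] at hij
    rw [← hij, TensorProduct.smul_tmul', TensorProduct.tmul_smul, Nat.cast_add, add_smul,
      TensorProduct.add_tmul, TensorProduct.smul_tmul']
  | mul a b ha hb =>
    rw [pd_mul, map_add, map_mul, map_mul, map_mul, ha, hb, prm_left_mul, prm_right_mul, add_mul,
      mul_add]
    abel
  | add a b ha hb =>
    rw [map_add, map_add, ha, hb, map_add, map_add, map_add]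
    abel

private lemma prm_Delta_rev (W : QY) :
    Delta (revY W) = TensorProduct.map revY revY (Delta W) := by
  induction W using FreeAlgebra.induction with
  | grade0 r =>
    rw [Algebra.algebraMap_eq_smul_one, map_smul, revY_one, map_smul, map_one,
      map_smul, Algebra.TensorProduct.one_def, TensorProduct.map_tmul, revY_one]
  | grade1 n =>
    obtain ⟨m, rfl⟩ : ∃ m : ℕ, n = m.succPNat := ⟨n.natPred, n.succPNat_natPred.symm⟩
    change Delta (revY (yy (m + 1))) = TensorProduct.map revY revY (Delta (yy (m + 1)))
    rw [revY_yy, prm_Delta_yy, map_sum]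
    refine Finset.sum_congr rfl fun ij _ => ?_
    rw [TensorProduct.map_tmul, revY_yy, revY_yy]
  | mul a b ha hb => rw [revY_mul, map_mul, map_mul, ha, hb, prm_rev_mul]
  | add a b ha hb => rw [map_add, map_add, ha, hb, map_add, map_add]

private lemma prm_pd {p : QY} (h : PrimY p) : PrimY (pd p) := by
  unfold PrimY at h ⊢
  rw [prm_coder, h]
  simp only [map_add, TensorProduct.map_tmul, LinearMap.id_apply, pd_one, TensorProduct.zero_tmul,
    TensorProduct.tmul_zero, add_zero, zero_add]

private lemma prm_smul {p : QY} (h : PrimY p) (c : ℚ) : PrimY (c • p) := by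
  unfold PrimY at h ⊢
  rw [map_smul, h, smul_add, TensorProduct.smul_tmul', TensorProduct.tmul_smul]

private lemma prm_rev {p : QY} (h : PrimY p) : PrimY (revY p) := by
  unfold PrimY at h ⊢
  rw [prm_Delta_rev, h, map_add, TensorProduct.map_tmul, TensorProduct.map_tmul, revY_one]

theorem p_prm : PrmS := by
  intro p hp i
  have h : PrimY (Fk p i) := by
    induction i with
    | zero => exact hp
    | succ i ih =>
      rw [Fk_succ]
      exact prm_smul (prm_pd ih) _
  exact ⟨h, prm_rev h⟩

end Pool.Agent.MP_a57f33_nt.GZ
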