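import Pool.Agent.Lib.MP_a57f33_nt.GZ.StmR

set_option autoImplicit false

/-!
Piece rvx of part R: the reversed expansion.
-/

namespace Pool.Agent.MP_a57f33_nt.GZ

open Pool.Agent.MP_a57f33_nt
open TensorProduct

/-- Plain reversal of words. -/
private noncomputable def rvx_rho : QX →ₗ[ℚ] QX :=
  anti fun b => (1 : ℚ) • FreeAlgebra.ι ℚ (id b)

private lemma rvx_rho_mul (x y : QX) : rvx_rho (x * y) = rvx_rho y * rvx_rho x := anti_mul _ _ _

private lemma rvx_rho_one : rvx_rho 1 = 1 := anti_one _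

private lemma rvx_rho_iota (b : Bool) :
    rvx_rho (FreeAlgebra.ι ℚ b) = FreeAlgebra.ι ℚ b := by
  unfold rvx_rho
  rw [anti_iota, one_smul]
  rfl

private lemma rvx_rho_pow (i : ℕ) : rvx_rho (X0 ^ i) = X0 ^ i := by
  induction i with
  | zero => rw [pow_zero, rvx_rho_one]
  | succ i ih => rw [pow_succ', rvx_rho_mul, ih, rvx_rho_iota, ← pow_succ, pow_succ']

private lemma rvx_rho_lie {N : ℕ} {ψ : QX} (h : ψ ∈ LieX) (hN : IsHom N ψ) :
    rvx_rho ψ = ((-1 : ℚ) ^ (N + 1)) • ψ := by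
  apply ext_coeff
  intro w
  have h1 := coeff_anti 1 id (by simp) ψ w
  rw [one_pow, one_mul, List.map_id] at h1
  unfold rvx_rho
  rw [h1, coeff_smul, lie_reverse h]
  by_cases hw : w.length = N
  · rw [hw]
  · rw [hN w hw, mul_zero, mul_zero]

private lemma rvx_inY (f : QY) : rvx_rho (inY f) * X1 = X1 * inY (revY f) := by
  induction f using FreeAlgebra.induction with
  | grade0 r =>
    have e1 : inY (algebraMap ℚ QY r) = r • (1 : QX) := by
      rw [AlgHom.commutes, Algebra.algebraMap_eq_smul_one]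
    have e2 : revY (algebraMap ℚ QY r) = algebraMap ℚ QY r := by
      rw [Algebra.algebraMap_eq_smul_one, map_smul, revY_one]
    rw [e2, e1, map_smul, rvx_rho_one, smul_mul_assoc, mul_smul_comm, one_mul, mul_one]
  | grade1 n =>
    rw [revY_iota, inY_iota, rvx_rho_mul, rvx_rho_pow, rvx_rho_iota, mul_assoc]
  | mul a b ha hb =>
    rw [map_mul, rvx_rho_mul, mul_assoc, ha, ← mul_assoc, hb, mul_assoc, revY_mul, map_mul]
  | add a b ha hb =>
    rw [map_add, map_add, map_add, map_add, add_mul, mul_add, ha, hb]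

/-- [rvx] the reversed expansion -/
theorem p_rvx : RvxS := by
  intro N ψ p hψ hN hx
  have h1 : rvx_rho ψ * X1 = ∑ i ∈ Finset.range (N + 1), X0 ^ i * X1 * inY (revY (Fk p i)) := by
    conv_lhs => rw [hx]
    rw [map_sum, Finset.sum_mul]
    refine Finset.sum_congr rfl fun i _ => ?_
    rw [rvx_rho_mul, rvx_rho_pow, mul_assoc, rvx_inY, mul_assoc]
  rw [rvx_rho_lie hψ hN, smul_mul_assoc] at h1
  have h2 : ((-1 : ℚ) ^ (N + 1)) * (-1) ^ (N + 1) = 1 := by
    rw [← mul_pow]; simp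
  calc ψ * X1 = ((-1 : ℚ) ^ (N + 1)) • (((-1 : ℚ) ^ (N + 1)) • (ψ * X1)) := by
        rw [smul_smul, h2, one_smul]
    _ = _ := by
        rw [h1, Finset.smul_sum]
        refine Finset.sum_congr rfl fun i _ => ?_
        rw [map_smul, mul_smul_comm]

end Pool.Agent.MP_a57f33_nt.GZ
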