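import Pool.Agent.Lib.MP_a57f33_nt.GZ.StmR

/-!
Piece [shx]: `s_ψ` is a coderivation for the shuffle coproduct (up to multiplication by `ψ`).
-/

namespace Pool.Agent.MP_a57f33_nt.GZ

open Pool.Agent.MP_a57f33_nt
open TensorProduct

lemma shx_iota (b : Bool) : DeltaX (FreeAlgebra.ι ℚ b) =
    FreeAlgebra.ι ℚ b ⊗ₜ[ℚ] 1 + 1 ⊗ₜ[ℚ] FreeAlgebra.ι ℚ b := by
  simp [DeltaX]

lemma shx_comm (x y : QX) :
    (x ⊗ₜ[ℚ] (1 : QX) + (1 : QX) ⊗ₜ[ℚ] x) * (y ⊗ₜ[ℚ] (1 : QX) + (1 : QX) ⊗ₜ[ℚ] y) -
      (y ⊗ₜ[ℚ] (1 : QX) + (1 : QX) ⊗ₜ[ℚ] y) * (x ⊗ₜ[ℚ] (1 : QX) + (1 : QX) ⊗ₜ[ℚ] x) =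
    (x * y - y * x) ⊗ₜ[ℚ] (1 : QX) + (1 : QX) ⊗ₜ[ℚ] (x * y - y * x) := by
  simp only [mul_add, add_mul, Algebra.TensorProduct.tmul_mul_tmul, one_mul, mul_one,
    TensorProduct.sub_tmul, TensorProduct.tmul_sub]
  abel

lemma shx_prim {ψ : QX} (h : ψ ∈ LieX) : DeltaX ψ = ψ ⊗ₜ[ℚ] 1 + 1 ⊗ₜ[ℚ] ψ := by
  refine lie_induction (P := fun ψ => DeltaX ψ = ψ ⊗ₜ[ℚ] 1 + 1 ⊗ₜ[ℚ] ψ) ?_ ?_ ?_ ?_ ?_ h
  · exact shx_iota
  · simp
  · intro x y hx hy
    rw [map_add, hx, hy, TensorProduct.add_tmul, TensorProduct.tmul_add]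
    abel
  · intro r x hx
    rw [map_smul, hx, smul_add, TensorProduct.smul_tmul', TensorProduct.tmul_smul]
  · intro x y _ _ hx hy
    rw [map_sub, map_mul, map_mul, hx, hy, shx_comm]

lemma shx_der_left (d : QX →ₗ[ℚ] QX) (hd : ∀ a b, d (a * b) = d a * b + a * d b)
    (S T : QX ⊗[ℚ] QX) : TensorProduct.map d LinearMap.id (S * T) =
      TensorProduct.map d LinearMap.id S * T + S * TensorProduct.map d LinearMap.id T := by
  induction S using TensorProduct.induction_on with
  | zero => simp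
  | add S S' hS hS' =>
    rw [add_mul, map_add, map_add, hS, hS', add_mul, add_mul]
    abel
  | tmul a b =>
    induction T using TensorProduct.induction_on with
    | zero => simp
    | add T T' hT hT' =>
      rw [mul_add, map_add, map_add, hT, hT', mul_add, mul_add]
      abel
    | tmul a' b' =>
      simp only [Algebra.TensorProduct.tmul_mul_tmul, TensorProduct.map_tmul, LinearMap.id_apply,
        hd, TensorProduct.add_tmul]

lemma shx_der_right (d : QX →ₗ[ℚ] QX) (hd : ∀ a b, d (a * b) = d a * b + a * d b)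
    (S T : QX ⊗[ℚ] QX) : TensorProduct.map LinearMap.id d (S * T) =
      TensorProduct.map LinearMap.id d S * T + S * TensorProduct.map LinearMap.id d T := by
  induction S using TensorProduct.induction_on with
  | zero => simp
  | add S S' hS hS' =>
    rw [add_mul, map_add, map_add, hS, hS', add_mul, add_mul]
    abel
  | tmul a b =>
    induction T using TensorProduct.induction_on with
    | zero => simp
    | add T T' hT hT' =>
      rw [mul_add, map_add, map_add, hT, hT', mul_add, mul_add]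
      abel
    | tmul a' b' =>
      simp only [Algebra.TensorProduct.tmul_mul_tmul, TensorProduct.map_tmul, LinearMap.id_apply,
        hd, TensorProduct.tmul_add]

lemma shx_mul_left (ψ : QX) (T : QX ⊗[ℚ] QX) :
    TensorProduct.map (LinearMap.mulLeft ℚ ψ) LinearMap.id T = (ψ ⊗ₜ[ℚ] (1 : QX)) * T := by
  induction T using TensorProduct.induction_on with
  | zero => simp
  | add T T' hT hT' => rw [map_add, hT, hT', mul_add]
  | tmul a b => simp

lemma shx_mul_right (ψ : QX) (T : QX ⊗[ℚ] QX) :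
    TensorProduct.map LinearMap.id (LinearMap.mulLeft ℚ ψ) T = ((1 : QX) ⊗ₜ[ℚ] ψ) * T := by
  induction T using TensorProduct.induction_on with
  | zero => simp
  | add T T' hT hT' => rw [map_add, hT, hT', mul_add]
  | tmul a b => simp

lemma shx_der {ψ : QX} (h : ψ ∈ LieX) (W : QX) : DeltaX (derL ψ W) =
    TensorProduct.map (derL ψ) LinearMap.id (DeltaX W) +
      TensorProduct.map LinearMap.id (derL ψ) (DeltaX W) := by
  have hm : ∀ a b, derL ψ (a * b) = derL ψ a * b + a * derL ψ b := fun a b => der_mul ψ a b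
  have h1 : derL ψ 1 = 0 := der_one ψ
  induction W using FreeAlgebra.induction with
  | grade0 r =>
    rw [Algebra.algebraMap_eq_smul_one, map_smul, map_smul, map_smul, map_smul, map_smul, h1,
      map_one, Algebra.TensorProduct.one_def, TensorProduct.map_tmul, TensorProduct.map_tmul, h1]
    simp
  | grade1 b =>
    have h0 : DeltaX (derL ψ (FreeAlgebra.ι ℚ b)) = derL ψ (FreeAlgebra.ι ℚ b) ⊗ₜ[ℚ] 1 +
        1 ⊗ₜ[ℚ] derL ψ (FreeAlgebra.ι ℚ b) := by
      cases b with
      | false =>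
        have e : derL ψ (FreeAlgebra.ι ℚ false) = 0 := der_false ψ
        rw [e]
        simp
      | true =>
        have e : derL ψ (FreeAlgebra.ι ℚ true) =
          FreeAlgebra.ι ℚ true * ψ - ψ * FreeAlgebra.ι ℚ true := der_true ψ
        rw [e, map_sub, map_mul, map_mul, shx_prim h, shx_iota, shx_comm]
    rw [h0, shx_iota, map_add, map_add, TensorProduct.map_tmul, TensorProduct.map_tmul,
      TensorProduct.map_tmul, TensorProduct.map_tmul, h1]
    simp
  | mul a b ha hb =>
    rw [hm, map_add, map_mul, map_mul, map_mul, ha, hb, shx_der_left _ hm, shx_der_right _ hm,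
      add_mul, mul_add]
    abel
  | add a b ha hb =>
    rw [map_add, map_add, map_add, map_add, map_add, ha, hb]
    abel

theorem p_shx : ShxS := by
  intro ψ h W
  have e : ∀ V : QX, sL ψ V = ψ * V + derL ψ V := fun V => rfl
  have e1 : TensorProduct.map (sL ψ) (LinearMap.id : QX →ₗ[ℚ] QX) =
      TensorProduct.map (LinearMap.mulLeft ℚ ψ) LinearMap.id +
        TensorProduct.map (derL ψ) LinearMap.id := TensorProduct.map_add_left _ _ _
  have e2 : TensorProduct.map (LinearMap.id : QX →ₗ[ℚ] QX) (sL ψ) =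
      TensorProduct.map LinearMap.id (LinearMap.mulLeft ℚ ψ) +
        TensorProduct.map LinearMap.id (derL ψ) := TensorProduct.map_add_right _ _ _
  rw [e, map_add, map_mul, shx_prim h, shx_der h, e1, e2, LinearMap.add_apply,
    LinearMap.add_apply, shx_mul_left, shx_mul_right, add_mul]
  abel

end Pool.Agent.MP_a57f33_nt.GZ
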