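import Pool.Agent.Lib.MP_a57f33_nt.GZ.StmR

/-!
Piece [sx]: `s_ψ` on the image of `ℚ⟨Y⟩`.
-/

set_option autoImplicit false

namespace Pool.Agent.MP_a57f33_nt.GZ

open Pool.Agent.MP_a57f33_nt
open TensorProduct

lemma sx_sL (ψ a : QX) : sL ψ a = ψ * a + der ψ a := rfl

lemma sx_der_pow (ψ : QX) (m : ℕ) : der ψ (X0 ^ m) = 0 := by
  induction m with
  | zero => rw [pow_zero, der_one]
  | succ m ih => rw [pow_succ, der_mul, ih, der_false, zero_mul, mul_zero, add_zero]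

lemma sx_inY_yz (n : ℕ+) (i : ℕ) :
    inY (yz ((((n : ℕ) : ℤ)) + (i : ℤ))) = X0 ^ ((n : ℕ) - 1 + i) * X1 := by
  have hn : 0 < (n : ℕ) := n.pos
  have e : (((n : ℕ) : ℤ)) + (i : ℤ) = ((((n : ℕ) - 1 + i) + 1 : ℕ) : ℤ) := by
    push_cast
    omega
  rw [e, yz_nat, inY_yy]

/-- the value at a letter -/
lemma sx_letter (N : ℕ) (ψ : QX) (p : QY)
    (h1 : ψ = ∑ i ∈ Finset.range (N + 1), inY (Fk p i) * X0 ^ i)
    (h2 : ψ * X1 = ∑ i ∈ Finset.range (N + 1),
      X0 ^ i * X1 * inY (((-1 : ℚ) ^ (N + 1)) • revY (Fk p i))) (n : ℕ+) :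
    ψ * (X0 ^ ((n : ℕ) - 1) * X1) - X0 ^ ((n : ℕ) - 1) * (ψ * X1) =
      inY (gg N p ((n : ℕ) : ℤ)) := by
  have e1 : ψ * (X0 ^ ((n : ℕ) - 1) * X1) =
      ∑ i ∈ Finset.range (N + 1), inY (Fk p i) * (X0 ^ ((n : ℕ) - 1 + i) * X1) := by
    rw [h1, Finset.sum_mul]
    refine Finset.sum_congr rfl fun i _ => ?_
    rw [add_comm ((n : ℕ) - 1) i, pow_add X0 i ((n : ℕ) - 1)]
    simp only [mul_assoc]
  have e2 : X0 ^ ((n : ℕ) - 1) * (ψ * X1) = ∑ i ∈ Finset.range (N + 1),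
      ((-1 : ℚ) ^ (N + 1)) • (X0 ^ ((n : ℕ) - 1 + i) * X1 * inY (revY (Fk p i))) := by
    rw [h2, Finset.mul_sum]
    refine Finset.sum_congr rfl fun i _ => ?_
    rw [map_smul, mul_smul_comm, mul_smul_comm, pow_add X0 ((n : ℕ) - 1) i]
    simp only [mul_assoc]
  rw [e1, e2, ← Finset.sum_sub_distrib]
  unfold gg
  rw [map_sum]
  refine Finset.sum_congr rfl fun i _ => ?_
  rw [map_sub, map_smul, map_mul, map_mul, sx_inY_yz]

theorem p_sx : SxS := by
  intro N ψ p h1 h2 W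
  have key : ψ * inY W + der ψ (inY W) - inY W * ψ =
      inY (dY (fun n : ℕ+ => gg N p ((n : ℕ) : ℤ)) W) := by
    induction W using FreeAlgebra.induction with
    | grade0 r =>
      rw [Algebra.algebraMap_eq_smul_one, map_smul, map_smul, map_smul, dY_one, map_one,
        map_zero, smul_zero, ← derL_apply, map_smul, derL_apply, der_one, smul_zero,
        mul_smul_comm, mul_one, smul_mul_assoc, one_mul, add_zero, sub_self]
    | grade1 n =>
      rw [dY_iota, ← sx_letter N ψ p h1 h2 n, inY_iota, der_mul, sx_der_pow, der_true]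
      noncomm_ring
    | mul a b ha hb =>
      rw [dY_mul, map_add, map_mul, map_mul, map_mul, ← ha, ← hb, der_mul]
      noncomm_ring
    | add a b ha hb =>
      rw [map_add, map_add, map_add, ← ha, ← hb, ← derL_apply, map_add, derL_apply, derL_apply]
      noncomm_ring
  rw [sx_sL, ← key]
  abel

end Pool.Agent.MP_a57f33_nt.GZ
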