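import Pool.Agent.Lib.MP_a57f33_nt.GZ.StmD

/-!
# [tel] telescoping of the binomial sums
-/

namespace Pool.Agent.MP_a57f33_nt.GZ

open Pool.Agent.MP_a57f33_nt

theorem tel_core (r a : ℕ) (θ : ℚ) (hr : 1 ≤ r) (b : ℕ) :
    (if r ≤ b then (1 : ℚ) else 0) - (if r ≤ a then (1 : ℚ) else 0) +
      ∑ β ∈ Finset.range (b + 1), (if β < r ∧ r ≤ a + β + 1 then
        (((2 * r).choose (2 * β) : ℚ) - θ * ((2 * r).choose (2 * β + 1) : ℚ)) else 0) -
      ∑ β ∈ Finset.range (b + 1), (if 1 ≤ β ∧ β ≤ r ∧ r ≤ a + β then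
        (((2 * r).choose (2 * β) : ℚ) - θ * ((2 * r).choose (2 * β - 1) : ℚ)) else 0) =
    if r ≤ a + b + 1 then
      ((2 * r).choose (2 * a + 2) : ℚ) - θ * ((2 * r).choose (2 * b + 1) : ℚ) else 0 := by
  induction b with
  | zero =>
    rw [Finset.sum_range_one, Finset.sum_range_one, if_neg (by omega : ¬ r ≤ 0),
      if_neg (by omega : ¬ (1 ≤ 0 ∧ 0 ≤ r ∧ r ≤ a + 0))]
    rcases lt_trichotomy r (a + 1) with h | h | h
    · rw [if_pos (by omega : r ≤ a), if_pos (by omega), if_pos (by omega),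
        Nat.choose_eq_zero_of_lt (by omega : 2 * r < 2 * a + 2)]
      simp
      ring
    · rw [if_neg (by omega : ¬ r ≤ a), if_pos (by omega), if_pos (by omega),
        show 2 * a + 2 = 2 * r by omega]
      simp
    · rw [if_neg (by omega : ¬ r ≤ a), if_neg (by omega), if_neg (by omega)]
      simp
  | succ b ih =>
    rw [Finset.sum_range_succ _ (b + 1), Finset.sum_range_succ _ (b + 1)]
    rw [show ∀ x y z u v w : ℚ, x - y + (z + u) - (v + w) =
      (if r ≤ b then (1 : ℚ) else 0) - y + z - v + (x - (if r ≤ b then (1 : ℚ) else 0) + u - w) by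
        intros; ring]
    rw [ih]
    rcases lt_trichotomy r (a + b + 2) with h | h | h
    · rw [if_pos (by omega : r ≤ a + b + 1), if_pos (by omega : r ≤ a + (b + 1) + 1)]
      rcases lt_trichotomy r (b + 1) with h' | h' | h'
      · rw [if_pos (by omega : r ≤ b + 1), if_pos (by omega : r ≤ b), if_neg (by omega),
          if_neg (by omega), Nat.choose_eq_zero_of_lt (by omega : 2 * r < 2 * b + 1),
          Nat.choose_eq_zero_of_lt (by omega : 2 * r < 2 * (b + 1) + 1)]
        simp
      · rw [if_pos (by omega : r ≤ b + 1), if_neg (by omega : ¬ r ≤ b), if_neg (by omega),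
          if_pos (by omega), Nat.choose_eq_zero_of_lt (by omega : 2 * r < 2 * (b + 1) + 1),
          show 2 * (b + 1) - 1 = 2 * b + 1 by omega, show 2 * (b + 1) = 2 * r by omega]
        simp
      · rw [if_neg (by omega : ¬ r ≤ b + 1), if_neg (by omega : ¬ r ≤ b), if_pos (by omega),
          if_pos (by omega), show 2 * (b + 1) - 1 = 2 * b + 1 by omega]
        ring
    · rw [if_neg (by omega : ¬ r ≤ a + b + 1), if_pos (by omega : r ≤ a + (b + 1) + 1),
        if_neg (by omega : ¬ r ≤ b + 1), if_neg (by omega : ¬ r ≤ b), if_pos (by omega),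
        if_neg (by omega)]
      have e : (2 * r).choose (2 * a + 2) = (2 * r).choose (2 * (b + 1)) :=
        Nat.choose_symm_of_eq_add (by omega)
      rw [e]
      ring
    · rw [if_neg (by omega : ¬ r ≤ a + b + 1), if_neg (by omega : ¬ r ≤ a + (b + 1) + 1),
        if_neg (by omega : ¬ r ≤ b + 1), if_neg (by omega : ¬ r ≤ b), if_neg (by omega),
        if_neg (by omega)]
      ring

theorem p_tel : TelS := by
  intro r a b θ hr h
  rw [tel_core r a θ hr b, if_pos h]

end Pool.Agent.MP_a57f33_nt.GZ
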