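import Pool.Agent.Lib.MP_a57f33_nt.GZ.StmR

/-!
Piece [up]: the coefficients of `∂ W`.
-/

namespace Pool.Agent.MP_a57f33_nt.GZ

open Pool.Agent.MP_a57f33_nt

lemma up_vanish (u : List ℕ+) : ∀ f : List ℕ+ → ℚ, (∀ v, v ≠ [] → f v = 0) → up u f = 0 := by
  induction u with
  | nil => intro f _; rfl
  | cons n u ih =>
    intro f hf
    simp only [up]
    rw [hf _ (by simp), ih (fun v => f (n :: v)) (fun v _ => hf _ (by simp))]
    ring

lemma up_smul (u : List ℕ+) : ∀ (r : ℚ) (f : List ℕ+ → ℚ),
    up u (fun v => r * f v) = r * up u f := by
  induction u with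
  | nil => intro r f; simp only [up]; ring
  | cons n u ih =>
    intro r f
    simp only [up]
    rw [ih r (fun v => f (n :: v))]
    ring

lemma up_add (u : List ℕ+) : ∀ (f g : List ℕ+ → ℚ),
    up u (fun v => f v + g v) = up u f + up u g := by
  induction u with
  | nil => intro f g; simp only [up]; ring
  | cons n u ih =>
    intro f g
    simp only [up]
    rw [ih (fun v => f (n :: v)) (fun v => g (n :: v))]
    ring

/-- `f ↦ up u f` composed with the coefficients, as a linear map. -/
noncomputable def up_L (u : List ℕ+) : QY →ₗ[ℚ] ℚ where
  toFun W := up u (coeff W)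
  map_add' a b := by
    have : coeff (a + b) = fun v => coeff a v + coeff b v := by
      funext v; exact coeff_add a b v
    rw [this, up_add]
  map_smul' r a := by
    have : coeff (r • a) = fun v => r * coeff a v := by
      funext v; exact coeff_smul r a v
    rw [this, up_smul]
    rfl

lemma up_L_apply (u : List ℕ+) (W : QY) : up_L u W = up u (coeff W) := rfl

lemma up_yy_succ (k : ℕ) : yy (k + 1) = FreeAlgebra.ι ℚ (k.succPNat) := rfl

lemma up_word (w : List ℕ+) : ∀ u : List ℕ+,
    coeff (pd (word w)) u = up u (coeff (word w)) := by
  induction w with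
  | nil =>
    intro u
    rw [word_nil, pd_one, coeff_zero, up_vanish]
    intro v hv
    rw [← word_nil, coeff_word, if_neg]
    exact fun e => hv e.symm
  | cons a w ih =>
    intro u
    have hpa : pd (FreeAlgebra.ι ℚ a) = (((a : ℕ) : ℚ) - 1) • yy ((a : ℕ) - 1) := by
      rw [pd, dY_iota]
    rw [word_cons, pd_mul, coeff_add, hpa, smul_mul_assoc, coeff_smul]
    cases u with
    | nil =>
      rw [coeff_iota_mul_nil]
      simp only [up]
      obtain ⟨k, hk⟩ : ∃ k, (a : ℕ) = k + 1 := ⟨(a : ℕ) - 1, by have := a.pos; omega⟩
      rw [hk]
      cases k with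
      | zero => simp
      | succ k =>
        rw [show k + 1 + 1 - 1 = k + 1 from rfl, up_yy_succ, coeff_iota_mul_nil]
        ring
    | cons n u =>
      rw [coeff_iota_mul_cons]
      simp only [up]
      rw [coeff_iota_mul_cons]
      have e1 : (fun v => coeff (FreeAlgebra.ι ℚ a * word w) (n :: v)) =
          fun v => (if n = a then (1 : ℚ) else 0) * coeff (word w) v := by
        funext v
        rw [coeff_iota_mul_cons]
        split_ifs <;> ring
      rw [e1, up_smul, ← ih u]
      obtain ⟨k, hk⟩ : ∃ k, (a : ℕ) = k + 1 := ⟨(a : ℕ) - 1, by have := a.pos; omega⟩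
      have e2 : (((a : ℕ) : ℚ) - 1) * coeff (yy ((a : ℕ) - 1) * word w) (n :: u) =
          ((n : ℕ) : ℚ) * (if n + 1 = a then coeff (word w) u else 0) := by
        rw [hk]
        cases k with
        | zero =>
          have hne : ¬ (n + 1 = a) := by
            intro e
            have h1 : ((n + 1 : ℕ+) : ℕ) = (a : ℕ) := by rw [e]
            rw [PNat.add_coe, PNat.one_coe, hk] at h1
            have := n.pos
            omega
          rw [if_neg hne]
          simp
        | succ k =>
          rw [show k + 1 + 1 - 1 = k + 1 from rfl, up_yy_succ, coeff_iota_mul_cons]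
          by_cases hn : n = k.succPNat
          · have ha : n + 1 = a := by
              apply PNat.eq
              rw [PNat.add_coe, PNat.one_coe, hk, hn]
              rfl
            have hn' : (n : ℕ) = k + 1 := by rw [hn]; rfl
            rw [if_pos hn, if_pos ha, hn']
            push_cast
            ring
          · have ha : ¬ (n + 1 = a) := by
              intro e
              apply hn
              have h1 : ((n + 1 : ℕ+) : ℕ) = (a : ℕ) := by rw [e]
              rw [PNat.add_coe, PNat.one_coe, hk] at h1
              apply PNat.eq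
              show (n : ℕ) = k + 1
              omega
            rw [if_neg hn, if_neg ha]
            ring
      rw [e2]
      split_ifs <;> ring

theorem p_up : UpS := by
  intro W u
  have h : (coeffL u).comp pd = up_L u := by
    apply linear_ext
    intro w
    rw [LinearMap.comp_apply, coeffL_apply, up_L_apply]
    exact up_word w u
  have := LinearMap.congr_fun h W
  rw [LinearMap.comp_apply, coeffL_apply, up_L_apply] at this
  exact this

end Pool.Agent.MP_a57f33_nt.GZ
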