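import Pool.Agent.Lib.MP_a57f33_nt.GZ.StmR

/-!
Piece [xpl]: the expansion of a Lie element in powers of `x₀` on the right.
-/

namespace Pool.Agent.MP_a57f33_nt.GZ

open Pool.Agent.MP_a57f33_nt
open TensorProduct

/-- The insertions of `x₀` in the word `toX u ++ zs i`. -/
lemma xpl_ins (i : ℕ) (u : List ℕ+) : ∀ f : List Bool → ℚ,
    ins false (toX u ++ zs i) f =
      up u (fun v => f (toX v ++ zs i)) + ((i : ℚ) + 1) * f (toX u ++ zs (i + 1)) := by
  induction u with
  | nil =>
    intro f
    simp only [toX, List.nil_append, up, zero_add]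
    exact ins_tail i f
  | cons n u ih =>
    intro f
    have hn := n.pos
    have e1 : toX (n :: u) ++ zs i = zs ((n : ℕ) - 1) ++ true :: (toX u ++ zs i) := by
      simp [toX]
    have e2 : toX ((n + 1) :: u) ++ zs i =
        zs ((n : ℕ) - 1 + 1) ++ true :: (toX u ++ zs i) := by
      have h2 : ((n + 1 : ℕ+) : ℕ) - 1 = ((n : ℕ) - 1) + 1 := by
        rw [PNat.add_coe, PNat.one_coe]; omega
      rw [toX, h2]
      simp
    have e3 : toX (n :: u) ++ zs (i + 1) =
        zs ((n : ℕ) - 1) ++ true :: (toX u ++ zs (i + 1)) := by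
      simp [toX]
    have e4 : ∀ v : List ℕ+, toX (n :: v) ++ zs i =
        zs ((n : ℕ) - 1) ++ true :: (toX v ++ zs i) := by
      intro v
      simp [toX]
    have e5 : (((n : ℕ) - 1 : ℕ) : ℚ) + 1 = ((n : ℕ) : ℚ) := by
      rw [Nat.cast_sub hn]
      simp
    rw [e1, ins_block, ih]
    simp only [up]
    rw [e2, e3, e5]
    simp only [e4]
    ring

/-- `(F_i | u) = (ψ | u x₀^i)`. -/
lemma xpl_coeff (hU : UpS) {ψ : QX} {p : QY} (hψ : ψ ∈ LieX) (h0 : coeff ψ [false] = 0)
    (hp : ∀ u, coeff p u = coeff ψ (toX u)) (i : ℕ) :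
    ∀ u : List ℕ+, coeff (Fk p i) u = coeff ψ (toX u ++ zs i) := by
  induction i with
  | zero =>
    intro u
    rw [Fk_zero, hp]
    simp
  | succ i ih =>
    intro u
    have hi : ((i : ℚ) + 1) ≠ 0 := by positivity
    have e : coeff (Fk p i) = fun v => coeff ψ (toX v ++ zs i) := by
      funext v
      exact ih v
    rw [Fk_succ, coeff_smul, hU, e]
    by_cases hne : toX u ++ zs i = []
    · have hu : u = [] := by
        by_contra hu
        obtain ⟨v, hv⟩ := toX_ends u hu
        rw [hv] at hne
        simp at hne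
      subst hu
      have hi0 : i = 0 := by
        simpa [toX] using hne
      subst hi0
      simp [up, toX, h0]
    · have h1 := (lie_ins hψ).2 false _ hne
      rw [xpl_ins] at h1
      have h2 : up u (fun v => coeff ψ (toX v ++ zs i)) =
          -(((i : ℚ) + 1) * coeff ψ (toX u ++ zs (i + 1))) := by linarith
      rw [h2]
      field_simp

/-- The coefficient of `inY F * x₀^j` at `toX u ++ x₀^i`. -/
lemma xpl_pow (F : QY) (j : ℕ) : ∀ (i : ℕ) (u : List ℕ+),
    coeff (inY F * X0 ^ j) (toX u ++ zs i) = if i = j then coeff F u else 0 := by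
  induction j with
  | zero =>
    intro i u
    rw [pow_zero, mul_one]
    cases i with
    | zero =>
      rw [if_pos rfl]
      have : toX u ++ zs 0 = toX u := by simp
      rw [this, coeff_inY]
    | succ i =>
      rw [if_neg (by omega)]
      have : toX u ++ zs (i + 1) = (toX u ++ zs i) ++ [false] := by
        rw [zs, List.replicate_succ']
        simp
      rw [this, coeff_inY_false]
  | succ j ih =>
    intro i u
    rw [pow_succ, ← mul_assoc]
    cases i with
    | zero =>
      rw [if_neg (by omega)]
      have : toX u ++ zs 0 = toX u := by simp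
      rw [this]
      by_cases hu : u = []
      · subst hu
        exact coeff_mul_iota_nil _ _
      · obtain ⟨v, hv⟩ := toX_ends u hu
        rw [hv, coeff_mul_iota_snoc, if_neg (by simp)]
    | succ i =>
      have : toX u ++ zs (i + 1) = (toX u ++ zs i) ++ [false] := by
        rw [zs, List.replicate_succ']
        simp
      rw [this, coeff_mul_iota_snoc, if_pos rfl, ih]
      simp

/-- Every word is `toX u ++ zs i`. -/
lemma xpl_split (w : List Bool) : ∃ (u : List ℕ+) (i : ℕ), w = toX u ++ zs i := by
  by_cases h : true ∈ w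
  · obtain ⟨v, a, e⟩ := true_split w h
    obtain ⟨u, -, hu⟩ := exists_toX v
    refine ⟨u, a, ?_⟩
    rw [hu, e]
    simp
  · refine ⟨[], w.length, ?_⟩
    simp only [toX, List.nil_append]
    rw [List.eq_replicate_iff]
    refine ⟨rfl, fun b hb => ?_⟩
    cases b with
    | false => rfl
    | true => exact absurd hb h

lemma xpl_sum {ι : Type} (s : Finset ι) (f : ι → QX) (w : List Bool) :
    coeff (∑ i ∈ s, f i) w = ∑ i ∈ s, coeff (f i) w := by
  have := map_sum (coeffL w) f s
  simpa only [coeffL_apply] using this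

theorem p_xpl (hU : UpS) : XplS := by
  intro N ψ p hψ hN h0 hp
  apply ext_coeff
  intro w
  obtain ⟨u, i, rfl⟩ := xpl_split w
  rw [xpl_sum]
  simp only [xpl_pow]
  rw [Finset.sum_ite_eq]
  split_ifs with h
  · exact (xpl_coeff hU hψ h0 hp i u).symm
  · apply hN
    rw [Finset.mem_range] at h
    simp only [List.length_append, List.length_replicate]
    omega

end Pool.Agent.MP_a57f33_nt.GZ
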