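import Pool.Agent.Lib.MP_a57f33_nt.GZ.Base

/-!
# Part D: the action of `s_p` on the words of Zagier's formula.
Statements of the pieces, with proofs in words. Every piece is independent of the others.
`BZ.alt c n` is the alternating word of length `n` which starts with `c` (`alt c (n+1) = c :: alt (!c) n`).
`act N p Z w` is the sum over the positions `i` (`i + N ≤ w.length`) of
`(χ - χ') p(b) Z(ac)`, `a = w.take i`, `b = (w.drop i).take N`, `c = w.drop (i+N)`,
`χ = 1` if `i = 0` or the letter before `b` is `x₁`, `χ' = 1` if the letter after `b` is `x₁`.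
All statements were checked by computer for small `r, a, b`.
-/

namespace Pool.Agent.MP_a57f33_nt.GZ

open Pool.Agent.MP_a57f33_nt

/-- [p0] PROOF. In the notation of `BZ/Fin5.lean` (see the proof of `brown_zagier` there): for
`w = alt false (2r+1)`: `(sgn ψ | w) = K(1w) - K(0w)` (`BZ.K_diff`), `1w = alt true (2r+2)`, and `0w`
is a rotation of `wzz r 0` (move the last letter `x₀` of `0w` to the front, `K` is cyclic), so by
`BZ.K_wzz p_x2 hk _ (chainH_K h r) 0 _` it is `- 2 c`, `c = (sgn ψ | x₀^(2r) x₁)`. With `BZ.coeff_sgn`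
(`w` has `r` letters `x₁`, `x₀^(2r) x₁` has one): `(-1)^r (ψ|w) = 2 (ψ|x₀^(2r) x₁)`. -/
def P0S : Prop := ∀ ψ ∈ dm0, ∀ r : ℕ, 1 ≤ r →
  coeff ψ (BZ.alt false (2 * r + 1)) =
    2 * (-1) ^ r * coeff ψ (List.replicate (2 * r) false ++ [true])

/-- [kv] From `dm₀` to `dm₀ ⊗ k`. PROOF. For `x : k`: if `l x = 0` for all `l : k →ₗ[ℚ] ℚ` then
`x = 0` (`Module.forall_dual_apply_eq_zero_iff ℚ x`, or `Module.Free`/`Basis` of the `ℚ`-vector space
`k`). Each claim is a `ℚ`-linear identity in the values of `p`; apply `l` and use the facts for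
`ψ ∈ dm0`, `IsHom N ψ`, `coeff ψ w = l (p w)`: `IsHom`, `lie_reverse`, `(ψ|x₀^N) = 0` (`lie_ins`,
sum over the insertions of `x₀` in `x₀^(N-1)` for `N ≥ 2`; `(ψ|x₀) = 0`, `(ψ|1) = 0`),
`BZ.brown_zagier`, and the hypothesis `P0S`. Linearity: `l (q • x) = q * l x`, `l (-x) = - l x`. -/
def KvS : Prop := P0S → ∀ (k : Type) [CommRing k] [Algebra ℚ k] (N : ℕ) (p : List Bool → k),
  DM N p →
    (∀ w, w.length ≠ N → p w = 0) ∧
    (∀ w, p w.reverse = (-1) ^ (w.length + 1) * p w) ∧
    p (List.replicate N false) = 0 ∧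
    (∀ a b, p (BZ.hw a b) =
      cz (a + b + 1) a b • p (List.replicate (2 * (a + b + 1)) false ++ [true])) ∧
    (∀ r, 1 ≤ r → p (BZ.alt false (2 * r + 1)) =
      ((2 * (-1) ^ r : ℚ)) • p (List.replicate (2 * r) false ++ [true]))

/-- [alte] PROOF. Position `i` even: the factor starts and ends with `x₀`; the letter before is
`x₁` (or `i = 0`), the letter after exists (parity of the lengths) and is `x₁`: `1 - 1 = 0`.
Position `i` odd: the letter before is `x₀`, the letter after is `x₀` or there is none: `0 - 0`. -/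
def AlteS : Prop := ∀ (k : Type) [CommRing k] (p Z : List Bool → k) (r j : ℕ),
  act (2 * r + 1) p Z (BZ.alt false (2 * j)) = 0

/-- [actz] PROOF. `w = x₀^m x₁`, length `m + 1`. If `i + N ≤ m` the factor is `x₀^N`, `p = 0`.
If `i + N = m + 1` then there is no letter after, and the letter before is `x₀` unless `i = 0`;
`i = 0` means `N = m + 1`, factor `w`, rest `[]`. -/
def ActzS : Prop := ∀ (k : Type) [CommRing k] (N : ℕ) (p Z : List Bool → k), 1 ≤ N →
  p (List.replicate N false) = 0 → ∀ m : ℕ,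
    act N p Z (List.replicate m false ++ [true]) =
      if m + 1 = N then p (List.replicate m false ++ [true]) * Z [] else 0

/-- [acth] PROOF. `w = alt false (2b+1) ++ alt false (2a+2)`, length `2n+1`, `n = a+b+1`. The letter
with index `i` is `x₀` iff (`i` even and `i ≤ 2b`) or (`i` odd and `i ≥ 2b+1`). Factor
`w[i..i+2r]`, `0 ≤ i ≤ 2(n-r)`; coefficient `e = χ - χ'`:
`i = 2j` even: if `i + 2r < 2b`: `e = 1 - 1 = 0`; if `i + 2r = 2b`: `e = 1`, factor `alt false (2r+1)`
(this needs `r ≤ b`); if `j ≤ b < j + r`: `e = 1`, factor `alt false (2β+1) ++ alt false (2(r-β))`,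
`β = b - j` (constraints `0 ≤ β ≤ b`, `β < r`, `j ≤ n - r`, i.e. `r ≤ a + β + 1`); if `j > b`: `e = 0 - 0`.
`i = 2j+1` odd: if `i + 2r < 2b + 1`: `e = 0 - 0`; if `j < b ≤ j + r`: `e = 0 - 1`, factor
`alt true (2β) ++ alt false (2(r-β)+1)`, `β = b - j` (constraints `1 ≤ β ≤ b`, `β ≤ r`, `j ≤ n-r-1`,
i.e. `r ≤ a + β`); if `j = b`: `e = 0 - 1`, factor `alt false (2r+1)` (this needs `b ≤ n-r-1`, i.e.
`r ≤ a`); if `j > b`: `e = 1 - 1 = 0`.
In all cases with `e ≠ 0` the rest `w.take i ++ w.drop (i+2r+1)` is `alt false (2(n-r))`. -/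
def ActhS : Prop := ∀ (k : Type) [CommRing k] (p Z : List Bool → k) (r a b : ℕ),
  1 ≤ r → r ≤ a + b + 1 →
    act (2 * r + 1) p Z (BZ.alt false (2 * b + 1) ++ BZ.alt false (2 * a + 2)) =
      ((if r ≤ b then p (BZ.alt false (2 * r + 1)) else 0) -
        (if r ≤ a then p (BZ.alt false (2 * r + 1)) else 0) +
        ∑ β ∈ Finset.range (b + 1), (if β < r ∧ r ≤ a + β + 1 then
          p (BZ.alt false (2 * β + 1) ++ BZ.alt false (2 * (r - β))) else 0) -
        ∑ β ∈ Finset.range (b + 1), (if 1 ≤ β ∧ β ≤ r ∧ r ≤ a + β then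
          p (BZ.alt true (2 * β) ++ BZ.alt false (2 * (r - β) + 1)) else 0)) *
      Z (BZ.alt false (2 * (a + b + 1 - r)))

/-- [tel] PROOF. Put `u_β = C(2r, 2β)`, `v_β = C(2r, 2β+1)` (`v_β = 0` for `β ≥ r`). The conditions say
`β ∈ [max(0, r-1-a), min(b, r-1)]`, respectively `β ∈ [max(1, r-a), min(b, r)]`.
`θ`-part: `- ∑_first v_β + ∑_second v_(β-1) = - v_b` (shift the index in the second sum; if `b ≥ r` both
sums are equal and `v_b = 0`). Other part: `∑_first u_β - ∑_second u_β = (1 if a ≥ r, else C(2r, 2(r-1-a)) =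
C(2r, 2a+2)) - (1 if b ≥ r else 0)`; if `a ≥ r` then `C(2r, 2a+2) = 0`. Alternative: induction on `b`
(with `a` fixed): the difference of both sides for `b` and `b - 1`. -/
def TelS : Prop := ∀ (r a b : ℕ) (θ : ℚ), 1 ≤ r → r ≤ a + b + 1 →
  (if r ≤ b then (1 : ℚ) else 0) - (if r ≤ a then (1 : ℚ) else 0) +
      ∑ β ∈ Finset.range (b + 1), (if β < r ∧ r ≤ a + β + 1 then
        (((2 * r).choose (2 * β) : ℚ) - θ * ((2 * r).choose (2 * β + 1) : ℚ)) else 0) -
      ∑ β ∈ Finset.range (b + 1), (if 1 ≤ β ∧ β ≤ r ∧ r ≤ a + β then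
        (((2 * r).choose (2 * β) : ℚ) - θ * ((2 * r).choose (2 * β - 1) : ℚ)) else 0) =
    ((2 * r).choose (2 * a + 2) : ℚ) - θ * ((2 * r).choose (2 * b + 1) : ℚ)

/-- [af] the dictionary between `act` and `sL`. PROOF. Linear in `W`: `W = word v`, induction on `v`,
for all `w`. `s_ψ(1) = ψ`: both sides are `(ψ|w)` (only the position `i = 0`, `N = w.length`, contributes
because of `Z(ac) = [a = c = 1]`). `s_ψ(l v') = ψ l v' + der ψ (l v')` with
`der ψ (x₀ v') = x₀ der ψ v'`, `der ψ (x₁ v') = x₁ ψ v' - ψ x₁ v' + x₁ der ψ v'`. It is convenient to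
prove first the formula for `der`: `coeff (der ψ W) w = dact p w (coeff W)`, `p = coeff ψ`, where `dact` is
the sum with `χ` replaced by `χ_1 = 1` if `a` ends in `x₁` (so `0` for `a = 1`); it satisfies
`dact p (l :: w) Z = - ∑_{l w = b c, c starts with x₁} p(b) Z(c) + [l = x₁] ∑_{w = b c} p(b) Z(l c)
+ dact p w (Z(l ·))`; `conv`, `coeff_mul` in `Coeff.lean` describe the coefficients of products; and
`ψ W` gives the terms with `a = 1`. `IsHom N ψ` restricts the sums to `|b| = N`. -/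
def AfS : Prop := ∀ (N : ℕ) (ψ W : QX) (w : List Bool), IsHom N ψ →
  act N (coeff ψ) (coeff W) w = coeff (sL ψ W) w

end Pool.Agent.MP_a57f33_nt.GZ
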