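import Pool.Agent.Lib.MP_a57f33_nt.GZ.Base

/-!
# Part R: `s_ψ` is a coderivation for the stuffle coproduct (Racinet's theorem).
Statements of the pieces, with proofs in words. Every piece is independent of the others.
Basic rules are in `GZ/Base.lean` (import it): `dY_mul`, `dY_iota`, `dY_unique`, `pd_mul`, `pd_Fk`,
`pd_yz`, `revY_mul`, `revY_Fk`, `pd_revY`, …; `sL ψ W = ψ * W + der ψ W`; `der_mul`, `der_true`,
`der_false` are in `IharaLemmas.lean`; `inY : QY →ₐ QX`, `y_n ↦ X0^(n-1) X1`, `inY_word`,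
`coeff_inY`, `coeff_inY_false` are in `Antipode.lean`/`TwoTermA.lean`; `coeff_iota_mul_cons`,
`coeff_mul_iota_snoc`, … in `Coeff.lean`/`TwoTermA.lean`; `true_split`, `exists_toX`, `toX_ends` in
`DepthOne.lean`; `ins`, `zs` in `Ops.lean`, `lie_ins`, `lie_reverse`, `coeff_anti` in `LieFacts.lean`.
Notation: `ε = (-1)^(N+1)`, `F_i = Fk p i`.
-/

namespace Pool.Agent.MP_a57f33_nt.GZ

open Pool.Agent.MP_a57f33_nt
open TensorProduct

/-- [ends] PROOF. With `ψ' = sgn ψ`, `(ψ'|w) = K(1w) - K(0w)` (`BZ.K_diff`) and `K` cyclic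
(`BZ.p_cyc`: `K (w ++ [a]) = K (a :: w)`): `(ψ'|0w) - (ψ'|1w) = K(10w) - K(00w) - K(11w) + K(01w)`,
`(ψ'|w0) - (ψ'|w1) = K(1w0) - K(0w0) - K(1w1) + K(0w1)`, and `K(1w0) = K(01w)`, `K(0w0) = K(00w)`,
`K(1w1) = K(11w)`, `K(0w1) = K(10w)`. So the two are equal; `BZ.coeff_sgn`
(`(ψ'|w) = (-1)^(number of x₁) (ψ|w)`) gives the claim after division by `(-1)^(w.count true)`. -/
def EndsS : Prop := ∀ ψ ∈ dm0, ∀ w : List Bool,
  coeff ψ (false :: w) + coeff ψ (true :: w) = coeff ψ (w ++ [false]) + coeff ψ (w ++ [true])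

/-- The transpose of `∂`: sum over the letters `n` of `u` of `n f(n → n+1)`. -/
def up : List ℕ+ → (List ℕ+ → ℚ) → ℚ
  | [], _ => 0
  | n :: u, f => ((n : ℕ) : ℚ) * f ((n + 1) :: u) + up u (fun v => f (n :: v))

/-- [up] PROOF. Linear in `W`: take `W = word w` (`linear_ext`), induction on `w` with `pd_mul`;
`pd y_n = (n-1) y_{n-1}`; `coeff (ι n * q) (m :: u) = [m = n] coeff q u`, `coeff (ι n * q) [] = 0`. -/
def UpS : Prop := ∀ (W : QY) (u : List ℕ+), coeff (pd W) u = up u (coeff W)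

/-- [nil] PROOF. By [up], `pd` maps `IsHomY (M+1)` to `IsHomY M` and kills `IsHomY 0` (such a `p` is
a multiple of 1, `pd 1 = 0`). So `F_i` is `IsHomY (N-i)` for `i ≤ N` and `F_i = 0` for `i > N`. -/
def NilS : Prop := ∀ (N : ℕ) (p : QY), IsHomY N p → ∀ i, N < i → Fk p i = 0

/-- [xpl] PROOF. First `coeff ψ (toX u ++ zs i) = coeff (Fk p i) u` by induction on `i`:
`lie_ins` (sum over all insertions of `x₀` is zero, word nonempty) for the word `toX u ++ zs i`;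
the insertions inside `toX u` (not at its end) give `up u (fun v => coeff ψ (toX v ++ zs i))`
(a letter `y_n = x₀^(n-1) x₁` has `n` places in front of its `x₁`), the others give
`(i+1) coeff ψ (toX u ++ zs (i+1))`; compare with `Fk p (i+1) = -(1/(i+1)) pd (Fk p i)` and [up]
(prove it here directly or take it as a hypothesis `UpS`). For `u = [], i = 0` use `(ψ|x₀) = 0`.
Every word is `toX u ++ zs i` for a unique `i` and `u` (`true_split`, `exists_toX`). The coefficient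
of `inY F * X0^j` at `toX u ++ zs i` is `[i = j] coeff F u` (strip the `x₀` from the right with
`coeff_mul_iota_snoc`; `coeff_inY_false`; `toX u` is empty or ends in `true`). For `i > N` the
coefficient of `ψ` is 0 by `IsHom`. -/
def XplS : Prop := ∀ (N : ℕ) (ψ : QX) (p : QY), ψ ∈ LieX → IsHom N ψ → coeff ψ [false] = 0 →
  (∀ u, coeff p u = coeff ψ (toX u)) →
    ψ = ∑ i ∈ Finset.range (N + 1), inY (Fk p i) * X0 ^ i

/-- [rvx] PROOF. Let `ρ = anti (fun b => ι b)` (plain reversal of words, `anti_mul`, `coeff_anti`).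
`ρ ψ = (-1)^(N+1) ψ` (`lie_reverse`, `IsHom`, `ext_coeff`). For `f : QY`:
`ρ(inY f) * X1 = X1 * inY (revY f)` (linear in `f`, for words by induction, or by
`FreeAlgebra.induction`). Apply `ρ` to the expansion of `ψ` and multiply by `X1` on the right. -/
def RvxS : Prop := ∀ (N : ℕ) (ψ : QX) (p : QY), ψ ∈ LieX → IsHom N ψ →
  ψ = ∑ i ∈ Finset.range (N + 1), inY (Fk p i) * X0 ^ i →
    ψ * X1 = ∑ i ∈ Finset.range (N + 1),
      X0 ^ i * X1 * inY (((-1 : ℚ) ^ (N + 1)) • revY (Fk p i))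

/-- [h0] PROOF. `inY` is injective (`coeff_inY`, `ext_coeff`). Write `ψ = R0 X0 + R1 X1 =
X0 L0 + X1 L1`. From the first expansion (split off `i = 0`): `inY (∑_i F_i y_i) = (R1 + R0) X1`
(`inY F_0 = R1 X1`, `∑_{i≥1} inY F_i X0^(i-1) = R0`, up to the uniqueness of such decompositions; or
avoid `R`, `L` and compare coefficients at words `w ++ [true]`: the left side has the coefficient
`coeff ψ (w ++ [true]) + coeff ψ (w ++ [false])`), from the second one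
`inY (∑_i y_i ε rev F_i) = (L0 + L1) X1`. [ends] says `R0 + R1 = L0 + L1`. -/
def H0S : Prop := ∀ (N : ℕ) (ψ : QX) (p : QY),
  (∀ w : List Bool, coeff ψ (false :: w) + coeff ψ (true :: w) =
    coeff ψ (w ++ [false]) + coeff ψ (w ++ [true])) →
  coeff ψ [] = 0 → 
  ψ = ∑ i ∈ Finset.range (N + 1), inY (Fk p i) * X0 ^ i →
  ψ * X1 = ∑ i ∈ Finset.range (N + 1),
      X0 ^ i * X1 * inY (((-1 : ℚ) ^ (N + 1)) • revY (Fk p i)) →
    gg N p 0 = 0

/-- [hj] PROOF. For all integers `n`: `pd (gg N p n) = (n-1) gg N p (n-1)`. Indeed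
`pd (yz m) = (m-1) yz (m-1)` for all `m` (`pd_yz`, and for `m = 0` both sides are 0, `yz (-1) = 0`),
`pd F_i = -(i+1) F_{i+1}` (`pd_Fk`), the same for `rev F_i` (`pd_revY`), so
`pd ∑_i F_i yz(n+i) = ∑_i -(i+1) F_{i+1} yz(n+i) + ∑_i (n+i-1) F_i yz(n-1+i)
= ∑_i (-i + n + i - 1) F_i yz(n-1+i)` (shift the index; the boundary term contains `F_{N+1} = 0`).
Now `n = -j`: `0 = pd (gg (-j)) = -(j+1) gg (-(j+1))`, induction on `j`. -/
def HjS : Prop := ∀ (N : ℕ) (p : QY), (∀ i, N < i → Fk p i = 0) → gg N p 0 = 0 →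
  ∀ j : ℕ, gg N p (-(j : ℤ)) = 0

/-- [ggk] PROOF. `pd (y₁^N) = 0` (`pd_y1_pow`), so `F_i(p + c y₁^N) = F_i(p)` for `i ≥ 1`
(`Fk_add`, `Fk_smul`, `Fk_of_pd_zero`) and `F_0 = p + c y₁^N`; `revY (y₁^N) = y₁^N`. -/
def GgkS : Prop := ∀ (N : ℕ) (p : QY) (c : ℚ) (n : ℤ), (-1 : ℚ) ^ (N + 1) * c = c →
  gg N (p + c • (FreeAlgebra.ι ℚ (1 : ℕ+)) ^ N) n =
    gg N p n + c • ((FreeAlgebra.ι ℚ (1 : ℕ+)) ^ N * yz n - yz n * (FreeAlgebra.ι ℚ (1 : ℕ+)) ^ N)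

/-- [cod] PROOF. For `A = dY g` the maps `A ⊗ 1`, `1 ⊗ A` are derivations of the algebra `QY ⊗ QY`
(check on pure tensors, `TensorProduct.induction_on`). So for `E(W) = Delta (A W) - (A ⊗ 1) Delta W -
(1 ⊗ A) Delta W` one has `E(ab) = E(a) Delta b + Delta a E(b)`, `E(1) = 0`, and `E(ι n) = 0` by
hypothesis: `FreeAlgebra.induction`. -/
def CodS : Prop := ∀ g : ℕ+ → QY,
  (∀ n : ℕ+, Delta (g n) = TensorProduct.map (dY g) LinearMap.id (Delta (FreeAlgebra.ι ℚ n)) +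
    TensorProduct.map LinearMap.id (dY g) (Delta (FreeAlgebra.ι ℚ n))) → CoderY (dY g)

/-- [prm] PROOF. (a) `pd` is a coderivation: `FreeAlgebra.induction` as in [cod]; for a letter
`Delta(pd y_n) = (n-1) ∑_{i+j=n-1} y_i ⊗ y_j`, and `(pd ⊗ 1 + 1 ⊗ pd) ∑_{i+j=n} y_i ⊗ y_j =
∑_{i+j=n, i≥1} (i-1) y_{i-1} ⊗ y_j + ∑_{i+j=n, j≥1} (j-1) y_i ⊗ y_{j-1}`
`= ∑_{i+j=n-1} (i + j) y_i ⊗ y_j`. A coderivation maps primitive elements to primitive ones (`pd 1 = 0`).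
(b) `Delta (revY W) = (revY ⊗ revY) Delta W`: induction, `revY ⊗ revY` reverses products.
So all `F_i` and `revY F_i` are primitive. -/
def PrmS : Prop := ∀ p : QY, PrimY p → ∀ i : ℕ, PrimY (Fk p i) ∧ PrimY (revY (Fk p i))

/-- [gen] the generating function computation. PROOF. Write `G n = gg N p n`, `n ≥ 1`.
`Delta (yy m) = ∑_{i+j=m} yy i ⊗ yy j = ∑_{j < M} yz (m - j) ⊗ yy j` for every `M > m`. With `M = n + N + 1`,
`Delta F_i = F_i ⊗ 1 + 1 ⊗ F_i`: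
`Delta (G n) = ∑_{j<M} G(n-j) ⊗ yy j + ∑_{j<M} yy j ⊗ G(n-j)` (collect
`∑_i (F_i yz(n-j+i) - ε yz(n-j+i) rev F_i) = gg N p (n-j)`; for the second sum use the expansion
`Delta (yy m) = ∑_{j<M} yy j ⊗ yz (m-j)`). The terms with `j ≥ n` vanish by hypothesis, and for
`j < n` they are the terms of `(dY G ⊗ 1)(Delta y_n) + (1 ⊗ dY G)(Delta y_n)`
(`dY G (yy i) = G i` for `i ≥ 1`, `dY_yy`; `dY G (yy 0) = 0`, `dY_one`). -/
def GenS : Prop := ∀ (N : ℕ) (p : QY),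
  (∀ i : ℕ, PrimY (Fk p i) ∧ PrimY (revY (Fk p i))) → (∀ j : ℕ, gg N p (-(j : ℤ)) = 0) →
  ∀ n : ℕ+, Delta (gg N p ((n : ℕ) : ℤ)) =
    TensorProduct.map (dY fun n : ℕ+ => gg N p ((n : ℕ) : ℤ)) LinearMap.id
      (Delta (FreeAlgebra.ι ℚ n)) +
    TensorProduct.map LinearMap.id (dY fun n : ℕ+ => gg N p ((n : ℕ) : ℤ))
      (Delta (FreeAlgebra.ι ℚ n))

/-- [mul] PROOF. `Delta (W p) = Delta W (p ⊗ 1 + 1 ⊗ p)`, `(· p ⊗ 1) T = T (p ⊗ 1)` for all tensors `T`;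
and sums of coderivations are coderivations. -/
def MulS : Prop := ∀ (p : QY) (A : QY →ₗ[ℚ] QY), PrimY p → CoderY A →
  CoderY (LinearMap.mulRight ℚ p + A)

/-- [sx] PROOF. `E(W) = ψ inY W + der ψ (inY W) - inY W ψ` satisfies
`E(ab) = E(a) inY b + inY a E(b)` (`der_mul`), the same as `inY (dY g W)`, so it is enough
(`FreeAlgebra.induction`) to compare them for `W = y_n`, `n ≥ 1`:
`E(y_n) = ψ X0^(n-1) X1 + X0^(n-1) (X1 ψ - ψ X1) - X0^(n-1) X1 ψ = ψ X0^(n-1) X1 - X0^(n-1) (ψ X1)`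
(`der ψ (X0^m) = 0`), insert the two expansions: it is
`∑_i inY F_i X0^(i+n-1) X1 - ∑_i X0^(n-1+i) X1 inY(ε rev F_i) = inY (gg N p n)`. -/
def SxS : Prop := ∀ (N : ℕ) (ψ : QX) (p : QY),
  ψ = ∑ i ∈ Finset.range (N + 1), inY (Fk p i) * X0 ^ i →
  ψ * X1 = ∑ i ∈ Finset.range (N + 1),
      X0 ^ i * X1 * inY (((-1 : ℚ) ^ (N + 1)) • revY (Fk p i)) →
  ∀ W : QY, sL ψ (inY W) = inY W * ψ + inY (dY (fun n : ℕ+ => gg N p ((n : ℕ) : ℤ)) W)

/-- [cf] PROOF. The coefficient at `toX u` of `inY W * ∑_i inY F_i X0^i` is that of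
`inY (W F_0) = inY (W p)` (the terms `i ≥ 1` end in `x₀`, and `toX u` is empty or ends in `x₁`);
then `coeff_inY`. -/
def CfS : Prop := ∀ (N : ℕ) (ψ : QX) (p : QY) (g : ℕ+ → QY),
  ψ = ∑ i ∈ Finset.range (N + 1), inY (Fk p i) * X0 ^ i →
  (∀ W : QY, sL ψ (inY W) = inY W * ψ + inY (dY g W)) →
  (∀ (W : QY) (u : List ℕ+), coeff (sL ψ (inY W)) (toX u) = coeff (W * p + dY g W) u) ∧
  (∀ (W : QX) (u : List ℕ+), coeff (sL ψ (W * X0)) (toX u) = 0)

/-- [shx] the shuffle coproduct. PROOF. `lie_induction`: every `ψ ∈ LieX` satisfies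
`DeltaX ψ = ψ ⊗ 1 + 1 ⊗ ψ`. Then as in [cod]: `E(W) = DeltaX (der ψ W) - (der ψ ⊗ 1 + 1 ⊗ der ψ) DeltaX W`
satisfies `E(ab) = E(a) DeltaX b + DeltaX a E(b)` and vanishes on the letters (`der_false`, `der_true`);
and `DeltaX (ψ W) = (ψ ⊗ 1 + 1 ⊗ ψ) DeltaX W`. -/
def ShxS : Prop := ∀ ψ ∈ LieX, ∀ W : QX, DeltaX (sL ψ W) =
  TensorProduct.map (sL ψ) LinearMap.id (DeltaX W) +
    TensorProduct.map LinearMap.id (sL ψ) (DeltaX W)

end Pool.Agent.MP_a57f33_nt.GZ
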